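import Mathlib
import Pool.Agent.H186R3.CycWidth

open Matrix
open scoped Fin.CommRing Fin.NatCast

namespace H186Cyc

/-- barycentric coordinates with respect to `0, e_1, …, e_d` -/
def bary {d : ℕ} (x : Fin d → ℝ) : Fin (d+1) → ℝ := Fin.cons (1 - ∑ i, x i) x

/-- The simplex cut out by the `d+1` inequalities `∑ j, M i j * b_j(x) ≥ 0`. -/
def body {d : ℕ} (M : Matrix (Fin (d+1)) (Fin (d+1)) ℝ) : Set (Fin d → ℝ) :=
  {x | ∀ i, 0 ≤ ∑ j, M i j * bary x j}

theorem bary_sum {d : ℕ} (x : Fin d → ℝ) : ∑ j, bary x j = 1 := by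
  rw [Fin.sum_univ_succ]; simp [bary]

section mono
variable {d : ℕ} (M : Matrix (Fin (d+1)) (Fin (d+1)) ℝ) (h0 : ∀ i, M i i = 0)
  (hmono : ∀ i j, j ≠ i → M i (j+1) ≤ M i j)

include hmono in
theorem le_first (_hd : 1 ≤ d) (i : Fin (d+1)) (k : ℕ) (hk : 1 ≤ k) (hkd : k ≤ d) :
    M i (i + (k : Fin (d+1))) ≤ M i (i+1) := by
  induction k, hk using Nat.le_induction with
  | base => simp
  | succ k hk ih =>
    have h1 := ih (by omega)
    have hne : i + (k : Fin (d+1)) ≠ i := by
      intro h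
      have h2 : (k : Fin (d+1)) = 0 := by simpa using h
      have h3 := congrArg Fin.val h2
      rw [Fin.val_natCast] at h3
      rw [Nat.mod_eq_of_lt (by omega)] at h3
      simp at h3; omega
    have h2 := hmono i _ hne
    have e : i + ((k+1 : ℕ) : Fin (d+1)) = i + (k : Fin (d+1)) + 1 := by push_cast; ring
    rw [e]; linarith

include hmono in
theorem le_first' (hd : 1 ≤ d) (i j : Fin (d+1)) (hij : j ≠ i) : M i j ≤ M i (i+1) := by
  have h := le_first M hmono hd i (j - i).val ?_ ?_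
  · rw [Fin.cast_val_eq_self] at h
    simpa using h
  · rcases Nat.eq_zero_or_pos (j-i).val with h | h
    · exfalso; apply hij
      have : j - i = 0 := Fin.ext (by simpa using h)
      exact sub_eq_zero.1 this
    · exact h
  · have := (j-i).isLt; omega

include h0 hmono in
theorem sum_first (hd : 1 ≤ d) (hc : ∀ j, ∑ i, M i j = 1) :
    ((d:ℝ)+1) ≤ d * ∑ i, M i (i+1) := by
  have h1 : ∑ i, ∑ j, M i j = (d:ℝ) + 1 := by
    have : ∑ i, ∑ j, M i j = ∑ j, ∑ i, M i j := Finset.sum_comm
    rw [this]; simp [hc]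
  have h2 : ∀ i, ∑ j, M i j ≤ d * M i (i+1) := by
    intro i
    have e : ∑ j, M i j = ∑ j ∈ Finset.univ.erase i, M i j := by
      rw [← Finset.add_sum_erase _ _ (Finset.mem_univ i), h0, zero_add]
    rw [e]
    have := Finset.sum_le_card_nsmul (Finset.univ.erase i) (fun j => M i j) (M i (i+1))
      (fun j hj => le_first' M hmono hd i j (Finset.ne_of_mem_erase hj))
    rw [Finset.card_erase_of_mem (Finset.mem_univ i), Finset.card_univ, Fintype.card_fin] at this
    simpa using this
  rw [← h1, Finset.mul_sum]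
  exact Finset.sum_le_sum fun i _ => h2 i

include h0 hmono in
/-- For every integer vector of coordinate sum `1` some facet functional is `≤ 0`. -/
theorem free (c : Fin (d+1) → ℤ) (hcs : ∑ j, c j = 1) :
    ∃ i, ∑ j, M i j * (c j : ℝ) ≤ 0 := by
  let C : ℕ → ℤ := fun k => ∑ l ∈ Finset.range k, c (l : Fin (d+1))
  have hC1 : C (d+1) = 1 := by
    show ∑ l ∈ Finset.range (d+1), c (l : Fin (d+1)) = 1
    rw [← Fin.sum_univ_eq_sum_range (fun l => c (l : Fin (d+1)))]
    simpa using hcs
  obtain ⟨i, hi, hmax⟩ := Finset.exists_max_image (Finset.range (d+1))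
    (fun j : ℕ => ((d:ℤ)+2) * C (j+1) - j) ⟨0, by simp⟩
  rw [Finset.mem_range] at hi
  refine ⟨(i : Fin (d+1)), ?_⟩
  set I : Fin (d+1) := (i : Fin (d+1)) with hI
  have hIval : I.val = i := by rw [hI, Fin.val_natCast, Nat.mod_eq_of_lt hi]
  let N : ℕ → ℝ := fun j => M I (j : Fin (d+1))
  have hN0 : N (d+1) = N 0 := by simp [N]
  have hNI : N i = 0 := h0 I
  have e1 : ∑ j, M I j * (c j : ℝ) = ∑ j ∈ Finset.range (d+1), N j * ((C (j+1) : ℝ) - C j) := by
    rw [← Fin.sum_univ_eq_sum_range (fun j => N j * ((C (j+1) : ℝ) - C j))]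
    refine Finset.sum_congr rfl fun j _ => ?_
    have : (C (j.val+1) : ℝ) - C j.val = c j := by
      have : C (j.val+1) = C j.val + c j := by
        simp only [C, Finset.sum_range_succ]; simp
      rw [this]; push_cast; ring
    rw [this]; simp [N]
  have e2 : ∀ n : ℕ, ∑ j ∈ Finset.range n, N j * ((C (j+1) : ℝ) - C j)
      = N n * C n + ∑ j ∈ Finset.range n, (N j - N (j+1)) * C (j+1) := by
    intro n
    induction n with
    | zero => simp [C]
    | succ n ih => rw [Finset.sum_range_succ, ih, Finset.sum_range_succ]; ring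
  have e3 : N 0 = ∑ j ∈ Finset.range (d+1), (N j - N (j+1)) * (if j < i then 1 else 0) := by
    have : ∑ j ∈ Finset.range (d+1), (N j - N (j+1)) * (if j < i then (1:ℝ) else 0)
        = ∑ j ∈ Finset.range i, (N j - N (j+1)) := by
      simp only [mul_ite, mul_one, mul_zero]
      rw [← Finset.sum_filter]
      refine Finset.sum_congr ?_ fun _ _ => rfl
      ext j; simp; omega
    rw [this, Finset.sum_range_sub', hNI, sub_zero]
  have e4 : ∑ j ∈ Finset.range (d+1), (N j - N (j+1)) = 0 := by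
    rw [Finset.sum_range_sub', hN0, sub_self]
  have e5 : ∑ j, M I j * (c j : ℝ)
      = ∑ j ∈ Finset.range (d+1), (N j - N (j+1)) *
          ((C (j+1) : ℝ) - C (i+1) + (if j < i then 1 else 0)) := by
    rw [e1, e2, hN0, hC1]
    have : ∀ j, (N j - N (j+1)) * ((C (j+1) : ℝ) - C (i+1) + (if j < i then 1 else 0))
        = (N j - N (j+1)) * C (j+1) - (N j - N (j+1)) * C (i+1)
          + (N j - N (j+1)) * (if j < i then 1 else 0) := by intro j; ring
    simp only [this]
    rw [Finset.sum_add_distrib, Finset.sum_sub_distrib, ← Finset.sum_mul, e4, ← e3]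
    push_cast; ring
  rw [e5]
  refine Finset.sum_nonpos fun j hj => ?_
  rw [Finset.mem_range] at hj
  have hm := hmax j (Finset.mem_range.2 hj)
  by_cases hji : j = i
  · subst hji; simp
  · have hA : 0 ≤ N j - N (j+1) := by
      have hne : (j : Fin (d+1)) ≠ I := by
        intro h
        have := congrArg Fin.val h
        rw [hIval, Fin.val_natCast, Nat.mod_eq_of_lt hj] at this
        exact hji this
      have := hmono I (j : Fin (d+1)) hne
      have e : ((j+1 : ℕ) : Fin (d+1)) = (j : Fin (d+1)) + 1 := by push_cast; rfl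
      simp only [N, e]; linarith
    refine mul_nonpos_of_nonneg_of_nonpos hA ?_
    split_ifs with h
    · have : C (j+1) + 1 ≤ C (i+1) := by
        have hlt : (j:ℤ) < i := by exact_mod_cast h
        by_contra hcon
        push Not at hcon
        have : C (i+1) ≤ C (j+1) := by omega
        have h4 : ((d:ℤ)+2) * C (i+1) ≤ ((d:ℤ)+2) * C (j+1) :=
          mul_le_mul_of_nonneg_left this (by positivity)
        linarith
      have : (C (j+1) : ℝ) + 1 ≤ C (i+1) := by exact_mod_cast this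
      linarith
    · have : C (j+1) ≤ C (i+1) := by
        by_contra hcon
        push Not at hcon
        have h3 : C (i+1) + 1 ≤ C (j+1) := by omega
        have h4 : ((d:ℤ)+2) * (C (i+1) + 1) ≤ ((d:ℤ)+2) * C (j+1) :=
          mul_le_mul_of_nonneg_left h3 (by positivity)
        have h5 : (j:ℤ) < d + 1 := by exact_mod_cast hj
        have h6 : (0:ℤ) ≤ i := by positivity
        linarith
      have : (C (j+1) : ℝ) ≤ C (i+1) := by exact_mod_cast this
      linarith

end mono

end H186Cyc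

namespace H186Cyc

section final
variable {d : ℕ} (M : Matrix (Fin (d+1)) (Fin (d+1)) ℝ)

/-- a vector on `Fin (d+1)` whose cyclic increments vanish is constant -/
theorem const_of_step (q : Fin (d+1) → ℝ) (h : ∀ j, q (j+1) = q j) (j : Fin (d+1)) :
    q j = q 0 := by
  have : ∀ k : ℕ, q (k : Fin (d+1)) = q 0 := by
    intro k
    induction k with
    | zero => simp
    | succ k ih => rw [Nat.cast_succ, h, ih]
  have h2 := this j.val
  rwa [Fin.cast_val_eq_self] at h2

theorem int_of_step (q : Fin (d+1) → ℝ) (h : ∀ j, ∃ z : ℤ, q (j+1) - q j = z) (j : Fin (d+1)) :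
    ∃ z : ℤ, q j - q 0 = z := by
  have : ∀ k : ℕ, ∃ z : ℤ, q (k : Fin (d+1)) - q 0 = z := by
    intro k
    induction k with
    | zero => exact ⟨0, by simp⟩
    | succ k ih =>
      obtain ⟨z, hz⟩ := ih
      obtain ⟨z', hz'⟩ := h (k : Fin (d+1))
      exact ⟨z' + z, by rw [Nat.cast_succ]; push_cast; linarith⟩
  have h2 := this j.val
  rwa [Fin.cast_val_eq_self] at h2

/-- the facet functionals -/
def fac (x : Fin d → ℝ) (i : Fin (d+1)) : ℝ := ∑ j, M i j * bary x j

theorem fac_sum (hc : ∀ j, ∑ i, M i j = 1) (x : Fin d → ℝ) : ∑ i, fac M x i = 1 := by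
  have : ∑ i, fac M x i = ∑ j, ∑ i, M i j * bary x j := by
    simp only [fac]; exact Finset.sum_comm
  rw [this]
  simp only [← Finset.sum_mul, hc, one_mul]
  exact bary_sum x

theorem fac_comb (g : Fin (d+1) → ℝ) (x : Fin d → ℝ) :
    ∑ i, g i * fac M x i = (g ᵥ* M) 0 + ∑ i : Fin d, ((g ᵥ* M) i.succ - (g ᵥ* M) 0) * x i := by
  have e1 : ∑ i, g i * fac M x i = ∑ j, (g ᵥ* M) j * bary x j := by
    simp only [fac, Finset.mul_sum, Matrix.vecMul, dotProduct, Finset.sum_mul]
    rw [Finset.sum_comm]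
    refine Finset.sum_congr rfl fun j _ => Finset.sum_congr rfl fun i _ => ?_
    ring
  rw [e1, Fin.sum_univ_succ]
  simp only [bary, Fin.cons_zero, Fin.cons_succ, sub_mul, Finset.sum_sub_distrib,
    ← Finset.mul_sum]
  ring

theorem exists_dir (hd : 1 ≤ d) (h0 : ∀ i, M i i = 0) (hc : ∀ j, ∑ i, M i j = 1)
    (hmono : ∀ i j, j ≠ i → M i (j+1) ≤ M i j) (hdet : M.det ≠ 0) :
    ∃ u : Fin d → ℤ, u ≠ 0 ∧ ∀ x ∈ body M, ∀ y ∈ body M,
      ∑ i, (u i : ℝ) * (x i - y i) ≤ 2 * (d:ℝ)^2 / (d+1) := by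
  have hd' : (1:ℝ) ≤ d := by exact_mod_cast hd
  have hsf := sum_first M h0 hmono hd hc
  set m := ∑ i, M i (i+1) with hm
  have hmpos : 0 < m := by
    by_contra hcon
    push Not at hcon
    nlinarith
  let A : Matrix (Fin (d+1)) (Fin (d+1)) ℝ := fun i j => M i (j+1) - M i j
  have hA : ∀ i j, A i j = M i (j+1) - M i j := fun _ _ => rfl
  have hwA : ∀ (w : Fin (d+1) → ℝ) j, (w ᵥ* A) j = (w ᵥ* M) (j+1) - (w ᵥ* M) j := by
    intro w j
    simp only [Matrix.vecMul, dotProduct, hA, mul_sub, Finset.sum_sub_distrib]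
  have ho : ∀ i j, i ≠ j → A i j ≤ 0 := fun i j hij => by
    rw [hA]; linarith [hmono i j hij.symm]
  have hr : ∀ i, ∑ j, A i j = 0 := by
    intro i
    simp only [hA, Finset.sum_sub_distrib]
    have := Equiv.sum_comp (Equiv.addRight (1 : Fin (d+1))) (fun j => M i j)
    simp only [Equiv.coe_addRight] at this
    rw [this, sub_self]
  have hc' : ∀ j, ∑ i, A i j = 0 := by
    intro j
    simp only [hA, Finset.sum_sub_distrib, hc, sub_self]
  have hk : ∀ w : Fin (d+1) → ℝ, w ᵥ* A = 0 → ∀ i j, w i = w j := by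
    intro w hw
    have h1 : ∀ j, (w ᵥ* M) (j+1) = (w ᵥ* M) j := by
      intro j
      have := hwA w j
      rw [hw] at this
      simp only [Pi.zero_apply] at this
      linarith
    have h2 := const_of_step _ h1
    have h3 : (w - fun _ => (w ᵥ* M) 0) ᵥ* M = 0 := by
      funext j
      rw [Matrix.sub_vecMul, Pi.sub_apply, h2 j]
      have : ((fun _ => (w ᵥ* M) 0) ᵥ* M) j = (w ᵥ* M) 0 := by
        simp only [Matrix.vecMul, dotProduct]
        rw [← Finset.mul_sum, hc, mul_one]
      rw [this]; simp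
    have h4 := Matrix.eq_zero_of_vecMul_eq_zero hdet h3
    intro i j
    have hi := congrFun h4 i
    have hj := congrFun h4 j
    simp only [Pi.sub_apply, Pi.zero_apply] at hi hj
    linarith
  have hmA : ∑ i, A i i = m := by
    simp only [hA, h0, sub_zero, hm]
  obtain ⟨x, y, hxy, g, hg, hmax, hmin, hb⟩ := main A ho hr hc' hk
    (by rw [Fintype.card_fin]; omega) (by rw [hmA]; exact hmpos)
  rw [hmA, Fintype.card_fin] at hb
  have hint : ∀ j, ∃ z : ℤ, (g ᵥ* M) (j+1) - (g ᵥ* M) j = z := by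
    intro j
    rw [← hwA, hg]
    refine ⟨(Pi.single x 1 - Pi.single y 1 : Fin (d+1) → ℤ) j, ?_⟩
    simp only [Pi.sub_apply, Pi.single_apply]
    split_ifs <;> simp
  choose U hU using int_of_step _ hint
  refine ⟨fun i => U i.succ, ?_, ?_⟩
  · intro hu
    have h1 : ∀ j, (g ᵥ* M) j = (g ᵥ* M) 0 := by
      intro j
      refine Fin.cases rfl (fun i => ?_) j
      have h2 := congrFun hu i
      simp only [Pi.zero_apply] at h2
      have h3 := hU i.succ
      rw [h2] at h3
      simp only [Int.cast_zero] at h3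
      linarith
    have h2 := hwA g x
    rw [h1 (x+1), h1 x, sub_self, hg] at h2
    simp only [Pi.sub_apply, Pi.single_apply, if_true, if_neg hxy] at h2
    norm_num at h2
  · intro p hp q hq
    have hF : ∀ z : Fin d → ℝ, ∑ i, g i * fac M z i
        = (g ᵥ* M) 0 + ∑ i : Fin d, (U i.succ : ℝ) * z i := by
      intro z
      rw [fac_comb]
      simp only [hU]
    have hup : ∑ i, g i * fac M p i ≤ g x := by
      have : ∑ i, g i * fac M p i ≤ ∑ i, g x * fac M p i :=
        Finset.sum_le_sum fun i _ => mul_le_mul_of_nonneg_right (hmax i) (hp i)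
      rwa [← Finset.mul_sum, fac_sum M hc, mul_one] at this
    have hlo : g y ≤ ∑ i, g i * fac M q i := by
      have : ∑ i, g y * fac M q i ≤ ∑ i, g i * fac M q i :=
        Finset.sum_le_sum fun i _ => mul_le_mul_of_nonneg_right (hmin i) (hq i)
      rwa [← Finset.mul_sum, fac_sum M hc, mul_one] at this
    have e : ∑ i : Fin d, (U i.succ : ℝ) * (p i - q i)
        = ∑ i, g i * fac M p i - ∑ i, g i * fac M q i := by
      rw [hF, hF]
      simp only [mul_sub, Finset.sum_sub_distrib]
      ring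
    have hge : 0 ≤ g x - g y := by linarith [hmax y]
    have hfin : g x - g y ≤ 2 * (d:ℝ)^2 / (d+1) := by
      rw [le_div_iff₀ (by positivity)]
      have h1 : (g x - g y) * (d+1) ≤ (g x - g y) * (d * m) :=
        mul_le_mul_of_nonneg_left hsf hge
      have h2 : ((d+1 : ℕ) : ℝ) - 1 = d := by push_cast; ring
      rw [h2] at hb
      have h3 : (g x - g y) * m * d ≤ 2 * d * d := mul_le_mul_of_nonneg_right hb (by positivity)
      nlinarith
    show ∑ i : Fin d, (U i.succ : ℝ) * (p i - q i) ≤ _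
    rw [e]; linarith

end final

section top
variable {d : ℕ} (M : Matrix (Fin (d+1)) (Fin (d+1)) ℝ)

theorem bary_cont : Continuous (fun x : Fin d → ℝ => bary x) := by
  refine continuous_pi fun j => ?_
  refine Fin.cases ?_ (fun i => ?_) j
  · simp only [bary, Fin.cons_zero]; fun_prop
  · simp only [bary, Fin.cons_succ]; fun_prop

theorem fac_cont (i : Fin (d+1)) : Continuous (fun x : Fin d → ℝ => fac M x i) := by
  unfold fac
  refine continuous_finsetSum _ fun j _ => ?_
  exact continuous_const.mul ((continuous_apply j).comp bary_cont)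

theorem fac_aff (x y : Fin d → ℝ) (a b : ℝ) (hab : a + b = 1) (i : Fin (d+1)) :
    fac M (a • x + b • y) i = a * fac M x i + b * fac M y i := by
  have : ∀ j, bary (a • x + b • y) j = a * bary x j + b * bary y j := by
    intro j
    refine Fin.cases ?_ (fun k => ?_) j
    · simp only [bary, Fin.cons_zero, Pi.add_apply, Pi.smul_apply, smul_eq_mul,
        Finset.sum_add_distrib, ← Finset.mul_sum]
      linear_combination -hab
    · simp [bary]
  unfold fac
  simp only [this, Finset.mul_sum, ← Finset.sum_add_distrib]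
  refine Finset.sum_congr rfl fun j _ => ?_
  ring

theorem body_closed : IsClosed (body M) := by
  have : body M = ⋂ i, {x | 0 ≤ fac M x i} := by
    ext x; simp [body, fac]
  rw [this]
  exact isClosed_iInter fun i => isClosed_le continuous_const (fac_cont M i)

theorem body_convex : Convex ℝ (body M) := by
  intro x hx y hy a b ha hb hab i
  show 0 ≤ fac M (a • x + b • y) i
  rw [fac_aff M x y a b hab]
  have h1 : 0 ≤ fac M x i := hx i
  have h2 : 0 ≤ fac M y i := hy i
  positivity

theorem exists_point (hc : ∀ j, ∑ i, M i j = 1) (hdet : M.det ≠ 0) (y : Fin (d+1) → ℝ)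
    (hy : ∑ i, y i = 1) : ∃ x : Fin d → ℝ, ∀ i, fac M x i = y i := by
  have hu : IsUnit M.det := isUnit_iff_ne_zero.2 hdet
  have hs : ∑ j, (M⁻¹ *ᵥ y) j = 1 := by
    have h1 : M *ᵥ (M⁻¹ *ᵥ y) = y := by
      rw [Matrix.mulVec_mulVec, Matrix.mul_nonsing_inv M hu, Matrix.one_mulVec]
    have h2 : ∑ i, (M *ᵥ (M⁻¹ *ᵥ y)) i = ∑ j, (M⁻¹ *ᵥ y) j := by
      have : ∑ i, (M *ᵥ (M⁻¹ *ᵥ y)) i = ∑ j, ∑ i, M i j * (M⁻¹ *ᵥ y) j := by
        have e : ∑ i, (M *ᵥ (M⁻¹ *ᵥ y)) i = ∑ i, ∑ j, M i j * (M⁻¹ *ᵥ y) j := rfl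
        rw [e]; exact Finset.sum_comm
      rw [this]
      simp only [← Finset.sum_mul, hc, one_mul]
    rw [← h2, h1, hy]
  refine ⟨fun i => (M⁻¹ *ᵥ y) i.succ, fun i => ?_⟩
  have hb : bary (fun i : Fin d => (M⁻¹ *ᵥ y) i.succ) = M⁻¹ *ᵥ y := by
    funext j
    refine Fin.cases ?_ (fun k => ?_) j
    · rw [Fin.sum_univ_succ] at hs
      simp only [bary, Fin.cons_zero]; linarith
    · simp [bary]
  have : fac M (fun i : Fin d => (M⁻¹ *ᵥ y) i.succ) i = (M *ᵥ (M⁻¹ *ᵥ y)) i := by
    unfold fac; rw [hb]; rfl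
  rw [this, Matrix.mulVec_mulVec, Matrix.mul_nonsing_inv M hu, Matrix.one_mulVec]

theorem body_compact (hc : ∀ j, ∑ i, M i j = 1) (hdet : M.det ≠ 0) : IsCompact (body M) := by
  have hu : IsUnit M.det := isUnit_iff_ne_zero.2 hdet
  have hcomp : IsCompact ((fun y : Fin (d+1) → ℝ => fun i : Fin d => (M⁻¹ *ᵥ y) i.succ) ''
      stdSimplex ℝ (Fin (d+1))) := by
    refine (isCompact_stdSimplex ℝ (Fin (d+1))).image ?_
    refine continuous_pi fun i => ?_
    have : Continuous (fun y : Fin (d+1) → ℝ => M⁻¹ *ᵥ y) :=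
      Continuous.matrix_mulVec continuous_const continuous_id
    exact (continuous_apply _).comp this
  refine hcomp.of_isClosed_subset (body_closed M) ?_
  intro x hx
  refine ⟨fun i => fac M x i, ⟨fun i => hx i, fac_sum M hc x⟩, ?_⟩
  funext i
  have : (fun i => fac M x i) = M *ᵥ bary x := rfl
  simp only [this]
  rw [Matrix.mulVec_mulVec, Matrix.nonsing_inv_mul M hu, Matrix.one_mulVec]
  simp [bary]

theorem body_interior (hc : ∀ j, ∑ i, M i j = 1) (hdet : M.det ≠ 0) :
    ∃ p ∈ interior (body M), ∀ i, 0 < fac M p i := by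
  obtain ⟨p, hp⟩ := exists_point M hc hdet (fun _ => 1/((d:ℝ)+1)) (by
    simp; field_simp)
  have hpos : ∀ i, 0 < fac M p i := fun i => by rw [hp]; positivity
  refine ⟨p, ?_, hpos⟩
  have hop : IsOpen (⋂ i, {x : Fin d → ℝ | 0 < fac M x i}) :=
    isOpen_iInter_of_finite fun i => isOpen_lt continuous_const (fac_cont M i)
  refine interior_maximal ?_ hop ?_
  · intro x hx i
    have := Set.mem_iInter.1 hx i
    exact le_of_lt this
  · exact Set.mem_iInter.2 hpos

/-- facet functionals are positive in the interior -/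
theorem pos_of_interior (hc : ∀ j, ∑ i, M i j = 1) (hdet : M.det ≠ 0) (z : Fin d → ℝ)
    (hz : z ∈ interior (body M)) (i : Fin (d+1)) : 0 < fac M z i := by
  obtain ⟨p, -, hp⟩ := body_interior M hc hdet
  by_contra hcon
  push Not at hcon
  have hcont : Continuous (fun t : ℝ => (1 + t) • z + (-t) • p) := by fun_prop
  have h0 : (fun t : ℝ => (1 + t) • z + (-t) • p) 0 ∈ interior (body M) := by simpa using hz
  have hev : ∀ᶠ t in nhds (0:ℝ), (1 + t) • z + (-t) • p ∈ interior (body M) :=
    hcont.continuousAt.eventually (isOpen_interior.mem_nhds h0)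
  obtain ⟨ε, hε, hball⟩ := Metric.eventually_nhds_iff.1 hev
  have h1 := hball (y := ε/2) (by rw [Real.dist_eq, sub_zero, abs_of_pos (by linarith)]; linarith)
  have h2 : 0 ≤ fac M ((1 + ε/2) • z + (-(ε/2)) • p) i := interior_subset h1 i
  rw [fac_aff M z p (1+ε/2) (-(ε/2)) (by ring)] at h2
  have h3 := hp i
  nlinarith [mul_pos hε h3]

theorem body_free (h0 : ∀ i, M i i = 0) (hc : ∀ j, ∑ i, M i j = 1)
    (hmono : ∀ i j, j ≠ i → M i (j+1) ≤ M i j) (hdet : M.det ≠ 0) (z : Fin d → ℤ) :
    (fun i => (z i : ℝ)) ∉ interior (body M) := by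
  intro hz
  obtain ⟨i, hi⟩ := free M h0 hmono (Fin.cons (1 - ∑ i, z i) z) (by
    rw [Fin.sum_univ_succ]; simp)
  have h1 := pos_of_interior M hc hdet _ hz i
  have h2 : fac M (fun i => (z i : ℝ)) i
      = ∑ j, M i j * ((Fin.cons (1 - ∑ i, z i) z : Fin (d+1) → ℤ) j : ℝ) := by
    unfold fac
    refine Finset.sum_congr rfl fun j _ => ?_
    congr 1
    refine Fin.cases ?_ (fun k => ?_) j
    · simp [bary]
    · simp [bary]
  rw [h2] at h1
  linarith

end top

end H186Cyc
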