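import Mathlib

set_option autoImplicit false
set_option linter.unusedSectionVars false

/-! Local symmetries of Delone sets: basic lemmas. -/

namespace Pool.Agent.H186R3.Del

open Metric Module

variable {E : Type*} [NormedAddCommGroup E] [InnerProductSpace ℝ E]

/-- linear part of an isometry -/
noncomputable def lin (g : E ≃ᵢ E) : E ≃ₗᵢ[ℝ] E := g.toRealLinearIsometryEquiv

theorem lin_sub (g : E ≃ᵢ E) (z w : E) : lin g (z - w) = g z - g w := by
  have h1 : lin g z = g z - g 0 := g.toRealLinearIsometryEquiv_apply z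
  have h2 : lin g w = g w - g 0 := g.toRealLinearIsometryEquiv_apply w
  rw [map_sub, h1, h2]; abel

theorem lin_mul (g h : E ≃ᵢ E) (v : E) : lin (g * h) v = lin g (lin h v) := by
  have h1 : lin (g * h) v = (g * h) v - (g * h) 0 := by
    rw [← lin_sub, sub_zero]
  have h2 : lin h v = h v - h 0 := by rw [← lin_sub, sub_zero]
  rw [h1, h2, lin_sub, IsometryEquiv.mul_apply, IsometryEquiv.mul_apply]

theorem lin_inv_lin (g : E ≃ᵢ E) (v : E) : lin g⁻¹ (lin g v) = v := by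
  rw [← lin_mul, inv_mul_cancel]
  have : lin (1 : E ≃ᵢ E) v = (1 : E ≃ᵢ E) v - (1 : E ≃ᵢ E) 0 := by rw [← lin_sub, sub_zero]
  rw [this, IsometryEquiv.coe_one, id, id, sub_zero]

theorem lin_lin_inv (g : E ≃ᵢ E) (v : E) : lin g (lin g⁻¹ v) = v := by
  have := lin_inv_lin g⁻¹ v
  rwa [inv_inv] at this

/-- `g` acts as a symmetry of `X` on the closed ball of radius `ρ` about `x`. -/
def LS (X : Set E) (g : E ≃ᵢ E) (x : E) (ρ : ℝ) : Prop := ∀ z, dist z x ≤ ρ → (z ∈ X ↔ g z ∈ X)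

theorem LS_iff (X : Set E) (g : E ≃ᵢ E) (x : E) (ρ : ℝ) :
    LS X g x ρ ↔ g '' (X ∩ closedBall x ρ) = X ∩ closedBall (g x) ρ := by
  constructor
  · intro h
    ext w
    constructor
    · rintro ⟨z, ⟨hz, hzx⟩, rfl⟩
      refine ⟨(h z hzx).1 hz, ?_⟩
      rw [mem_closedBall, g.dist_eq]; exact hzx
    · rintro ⟨hw, hwx⟩
      refine ⟨g.symm w, ⟨?_, ?_⟩, g.apply_symm_apply w⟩
      · apply (h _ _).2
        · rw [g.apply_symm_apply]; exact hw
        · rw [← g.dist_eq, g.apply_symm_apply]; exact hwx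
      · rw [mem_closedBall, ← g.dist_eq, g.apply_symm_apply]; exact hwx
  · intro h z hz
    constructor
    · intro hzX
      have : g z ∈ g '' (X ∩ closedBall x ρ) := ⟨z, ⟨hzX, hz⟩, rfl⟩
      rw [h] at this
      exact this.1
    · intro hgz
      have : g z ∈ X ∩ closedBall (g x) ρ := ⟨hgz, by rw [mem_closedBall, g.dist_eq]; exact hz⟩
      rw [← h] at this
      obtain ⟨w, hw, hwz⟩ := this
      rw [← g.injective hwz]
      exact hw.1

theorem LS.mono {X : Set E} {g : E ≃ᵢ E} {x x' : E} {ρ ρ' : ℝ} (h : LS X g x ρ)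
    (hr : ρ' + dist x' x ≤ ρ) : LS X g x' ρ' := by
  intro z hz
  apply h
  have := dist_triangle z x' x
  linarith

theorem LS.mono' {X : Set E} {g : E ≃ᵢ E} {x : E} {ρ ρ' : ℝ} (h : LS X g x ρ)
    (hr : ρ' ≤ ρ) : LS X g x ρ' := h.mono (by rw [dist_self]; linarith)

theorem LS.inv {X : Set E} {g : E ≃ᵢ E} {x : E} {ρ : ℝ} (h : LS X g x ρ) :
    LS X g⁻¹ (g x) ρ := by
  intro z hz
  have h1 : g (g⁻¹ z) = z := g.apply_symm_apply z
  have h2 : dist (g⁻¹ z) x ≤ ρ := by rw [← g.dist_eq, h1]; exact hz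
  have h3 := h _ h2
  rw [h1] at h3
  exact h3.symm

theorem LS.mul {X : Set E} {g h : E ≃ᵢ E} {x : E} {ρ : ℝ} (hg : LS X g (h x) ρ)
    (hh : LS X h x ρ) : LS X (g * h) x ρ := by
  intro z hz
  rw [IsometryEquiv.mul_apply]
  rw [hh z hz]
  apply hg
  rw [h.dist_eq]; exact hz

theorem LS.one {X : Set E} {x : E} {ρ : ℝ} : LS X (1 : E ≃ᵢ E) x ρ := by
  intro z _; rfl

/-- near-identity isometries -/
def Near (g : E ≃ᵢ E) : Prop := ∀ v, ‖lin g v - v‖ ≤ 1 / 2 * ‖v‖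

theorem Near.inv {g : E ≃ᵢ E} (h : Near g) : Near g⁻¹ := by
  intro v
  have h1 := h (lin g⁻¹ v)
  rw [lin_lin_inv, (lin g⁻¹).norm_map] at h1
  rwa [norm_sub_rev] at h1

theorem Near.conj {h : E ≃ᵢ E} (hh : Near h) (g : E ≃ᵢ E) : Near (g * h * g⁻¹) := by
  intro v
  rw [lin_mul, lin_mul]
  have h1 := hh (lin g⁻¹ v)
  rw [(lin g⁻¹).norm_map] at h1
  have h2 : lin g (lin h (lin g⁻¹ v)) - v = lin g (lin h (lin g⁻¹ v) - lin g⁻¹ v) := by
    rw [map_sub, lin_lin_inv]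
  rw [h2, (lin g).norm_map]
  exact h1

/-- near-identity local symmetries fixing `q` -/
def N (X : Set E) (q : E) (ρ : ℝ) : Set (E ≃ᵢ E) := {g | g q = q ∧ LS X g q ρ ∧ Near g}

theorem N_anti {X : Set E} {q : E} {ρ ρ' : ℝ} (h : ρ' ≤ ρ) : N X q ρ ⊆ N X q ρ' :=
  fun _ hg => ⟨hg.1, hg.2.1.mono' h, hg.2.2⟩

theorem N_move {X : Set E} {q z : E} {ρ ρ' : ℝ} {g : E ≃ᵢ E} (hg : g ∈ N X q ρ) (hz : g z = z)
    (h : ρ' + dist z q ≤ ρ) : g ∈ N X z ρ' := ⟨hz, hg.2.1.mono h, hg.2.2⟩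

theorem N_inv {X : Set E} {q : E} {ρ : ℝ} {g : E ≃ᵢ E} (hg : g ∈ N X q ρ) : g⁻¹ ∈ N X q ρ := by
  obtain ⟨h1, h2, h3⟩ := hg
  refine ⟨?_, ?_, h3.inv⟩
  · have : g⁻¹ (g q) = q := g.symm_apply_apply q
    rwa [h1] at this
  · have := h2.inv
    rwa [h1] at this

/-- conjugation by a local isometry -/
theorem N_conj {X : Set E} {q : E} {ρ : ℝ} {h g : E ≃ᵢ E} (hh : h ∈ N X q ρ)
    (hg : LS X g q ρ) : g * h * g⁻¹ ∈ N X (g q) ρ := by
  obtain ⟨h1, h2, h3⟩ := hh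
  have e1 : g⁻¹ (g q) = q := g.symm_apply_apply q
  refine ⟨?_, ?_, h3.conj g⟩
  · rw [IsometryEquiv.mul_apply, IsometryEquiv.mul_apply, e1, h1]
  · apply LS.mul
    · rw [e1]
      apply LS.mul
      · rw [h1]; exact hg
      · exact h2
    · exact hg.inv

/-- direction of the common fixed space of the near-identity local symmetries at `q` -/
noncomputable def D (X : Set E) (q : E) (ρ : ℝ) : Submodule ℝ E where
  carrier := {v | ∀ g ∈ N X q ρ, lin g v = v}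
  add_mem' := by
    intro a b ha hb g hg
    rw [map_add, ha g hg, hb g hg]
  zero_mem' := by
    intro g _
    rw [map_zero]
  smul_mem' := by
    intro c x hx g hg
    rw [map_smul, hx g hg]

theorem mem_D {X : Set E} {q : E} {ρ : ℝ} {v : E} :
    v ∈ D X q ρ ↔ ∀ g ∈ N X q ρ, lin g v = v := Iff.rfl

/-- membership of the fixed space in terms of points -/
theorem sub_mem_D {X : Set E} {q z : E} {ρ : ℝ} :
    z - q ∈ D X q ρ ↔ ∀ g ∈ N X q ρ, g z = z := by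
  rw [mem_D]
  constructor
  · intro h g hg
    have := h g hg
    rw [lin_sub, hg.1] at this
    exact sub_left_injective this
  · intro h g hg
    rw [lin_sub, hg.1, h g hg]

theorem D_mono {X : Set E} {q : E} {ρ ρ' : ℝ} (h : ρ' ≤ ρ) : D X q ρ' ≤ D X q ρ :=
  fun _ hv g hg => hv g (N_anti h hg)

/-- if `N q ρ ⊆ N z ρ'` then `D z ρ' ≤ D q ρ`. -/
theorem D_le_of_subset {X : Set E} {q z : E} {ρ ρ' : ℝ} (h : N X q ρ ⊆ N X z ρ') :
    D X z ρ' ≤ D X q ρ :=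
  fun _ hv g hg => hv g (h hg)

end Pool.Agent.H186R3.Del
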