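import Mathlib
import Pool.Agent.H186R3.Del1

set_option autoImplicit false
set_option linter.unusedSectionVars false

/-! The descent step. -/

namespace Pool.Agent.H186R3.Del

open Metric Module

variable {E : Type*} [NormedAddCommGroup E] [InnerProductSpace ℝ E] [FiniteDimensional ℝ E]

theorem D_stable {X : Set E} {m : ℕ} {ρ0 : ℝ} (hmin : ∀ z, m ≤ finrank ℝ (D X z ρ0))
    {q : E} {ρ ρ' : ℝ} (hq : finrank ℝ (D X q ρ) = m) (h1 : ρ0 ≤ ρ') (h2 : ρ' ≤ ρ) :
    D X q ρ' = D X q ρ := by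
  apply Submodule.eq_of_le_of_finrank_le (D_mono h2)
  rw [hq]
  exact (hmin q).trans (Submodule.finrank_mono (D_mono h1))

theorem finrank_stable {X : Set E} {m : ℕ} {ρ0 : ℝ} (hmin : ∀ z, m ≤ finrank ℝ (D X z ρ0))
    {q : E} {ρ ρ' : ℝ} (hq : finrank ℝ (D X q ρ) = m) (h1 : ρ0 ≤ ρ') (h2 : ρ' ≤ ρ) :
    finrank ℝ (D X q ρ') = m := by
  rw [D_stable hmin hq h1 h2, hq]

theorem finrank_conj {X : Set E} {q : E} {ρ : ℝ} {g : E ≃ᵢ E} (hg : LS X g q ρ) :
    finrank ℝ (D X (g q) ρ) ≤ finrank ℝ (D X q ρ) := by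
  have h : ∀ v ∈ D X (g q) ρ, lin g⁻¹ v ∈ D X q ρ := by
    intro v hv h hh
    have h1 := hv _ (N_conj hh hg)
    rw [lin_mul, lin_mul] at h1
    have h2 := congrArg (lin g⁻¹) h1
    rwa [lin_inv_lin] at h2
  let f : D X (g q) ρ →ₗ[ℝ] D X q ρ :=
    (((lin g⁻¹).toLinearEquiv : E →ₗ[ℝ] E).restrict h)
  apply LinearMap.finrank_le_finrank_of_injective (f := f)
  intro a b hab
  have h3 := congrArg Subtype.val hab
  have h4 : lin g⁻¹ a = lin g⁻¹ b := h3
  exact Subtype.ext ((lin g⁻¹).injective h4)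

theorem near_dist {X : Set E} {q q' : E} {ρ : ℝ} {g : E ≃ᵢ E} (hg : g ∈ N X q ρ) :
    dist (g q') q' ≤ 1 / 2 * dist q' q := by
  have h := hg.2.2 (q' - q)
  rw [lin_sub, hg.1] at h
  rw [dist_eq_norm, dist_eq_norm]
  have e : g q' - q' = g q' - q - (q' - q) := by abel
  rw [e]
  exact h

theorem descent {X : Set E} {m : ℕ} {ρ0 : ℝ} (hmin : ∀ z, m ≤ finrank ℝ (D X z ρ0))
    {q q' : E} {ρ δ : ℝ} (hq : finrank ℝ (D X q ρ) = m) (hq' : finrank ℝ (D X q' ρ) = m)
    (hbad : q' - q ∉ D X q ρ) (hδ : dist q' q ≤ δ) (hρ : ρ0 + 2 * δ ≤ ρ) :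
    ∃ q'', finrank ℝ (D X q'' (ρ - δ)) = m ∧ q'' - q' ∉ D X q' (ρ - δ) ∧
      dist q'' q' ≤ δ / 2 := by
  have hδ0 : 0 ≤ δ := dist_nonneg.trans hδ
  by_contra hcon
  push Not at hcon
  have hD1 : D X q' (ρ - δ) = D X q' ρ := D_stable hmin hq' (by linarith) (by linarith)
  have hD2 : D X q' (ρ - 2 * δ) = D X q' ρ := D_stable hmin hq' (by linarith) (by linarith)
  have hLS : ∀ g ∈ N X q ρ, LS X g q' (ρ - δ) := by
    intro g hg
    exact hg.2.1.mono (by linarith)
  -- all the images of q' stay in the fixed space of q'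
  have H : ∀ g ∈ N X q ρ, g q' - q' ∈ D X q' ρ := by
    intro g hg
    by_contra hnot
    have h1 : dist (g q') q' ≤ δ / 2 := by
      have := near_dist (q' := q') hg
      linarith
    have h2 : finrank ℝ (D X (g q') (ρ - δ)) = m := by
      apply le_antisymm
      · exact (finrank_conj (hLS g hg)).trans
          (finrank_stable hmin hq' (by linarith) (by linarith)).le
      · exact (hmin _).trans (Submodule.finrank_mono (D_mono (by linarith)))
    have h3 := hcon (g q') h2 (by rw [hD1]; exact hnot)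
    linarith
  have H2 : ∀ g ∈ N X q ρ, ∀ v ∈ D X q' ρ, lin g⁻¹ v ∈ D X q' ρ := by
    intro g hg v hv h hh
    have h1 : g * h * g⁻¹ ∈ N X (g q') (ρ - δ) :=
      N_conj (N_anti (by linarith) hh) (hLS g hg)
    have h2 : (g * h * g⁻¹) q' = q' := by
      rw [IsometryEquiv.mul_apply, IsometryEquiv.mul_apply]
      have h3 := H g⁻¹ (N_inv hg)
      rw [sub_mem_D] at h3
      rw [h3 h hh]
      exact g.apply_symm_apply q'
    have h3 : g * h * g⁻¹ ∈ N X q' (ρ - 2 * δ) := by
      apply N_move h1 h2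
      have := near_dist (q' := q') hg
      rw [dist_comm] at this
      linarith
    rw [← hD2] at hv
    have h4 := hv _ h3
    rw [lin_mul, lin_mul] at h4
    have h5 := congrArg (lin g⁻¹) h4
    rwa [lin_inv_lin] at h5
  have H3 : ∀ g ∈ N X q ρ, ∀ v ∈ D X q' ρ, lin g v ∈ D X q' ρ := by
    intro g hg v hv
    have := H2 g⁻¹ (N_inv hg) v hv
    rwa [inv_inv] at this
  -- the projection of q to the fixed space of q'
  set D' := D X q' ρ with hD'
  set p : E := D'.starProjection (q - q') with hp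
  have hpD : p ∈ D' := Submodule.starProjection_apply_mem D' (q - q')
  set z : E := q' + p with hz
  have horth : ∀ v ∈ D', inner ℝ (q - z) v = (0 : ℝ) := by
    intro v hv
    have : q - z = (q - q') - p := by rw [hz]; abel
    rw [this]
    exact Submodule.starProjection_inner_eq_zero (q - q') v hv
  have hzfix : ∀ g ∈ N X q ρ, g z = z := by
    intro g hg
    have h1 : g z - z ∈ D' := by
      have h2 : g z - z = lin g p + (g q' - q') - p := by
        have : lin g p = g z - g q' := by rw [← lin_sub]; congr 1; rw [hz]; abel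
        rw [this, hz]; abel
      rw [h2]
      exact D'.sub_mem (D'.add_mem (H3 g hg p hpD) (H g hg)) hpD
    have h3 : inner ℝ (q - g z) (g z - z) = (0 : ℝ) := by
      have h4 : q - g z = lin g (q - z) := by rw [lin_sub, hg.1]
      have h5 : lin g (lin g⁻¹ (g z - z)) = g z - z := lin_lin_inv g _
      rw [h4, ← h5, (lin g).inner_map_map]
      exact horth _ (H2 g hg _ h1)
    have h6 := horth _ h1
    have h7 : inner ℝ (g z - z) (g z - z) = (0 : ℝ) := by
      have : g z - z = (q - z) - (q - g z) := by abel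
      nth_rw 1 [this]
      rw [inner_sub_left, h6, h3, sub_zero]
    rw [inner_self_eq_zero] at h7
    exact sub_eq_zero.mp h7
  have hzq : dist z q ≤ δ := by
    have h1 : dist z q = ‖(q - q') - p‖ := by
      rw [dist_comm, dist_eq_norm]; congr 1; rw [hz]; abel
    have h2 : ‖(q - q') - p‖ ≤ ‖q - q'‖ := by
      have h3 : inner ℝ ((q - q') - p) p = (0 : ℝ) :=
        Submodule.starProjection_inner_eq_zero (q - q') p hpD
      have h4 : ‖q - q'‖ ^ 2 = ‖(q - q') - p‖ ^ 2 + ‖p‖ ^ 2 := by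
        have h5 : q - q' = ((q - q') - p) + p := by abel
        nth_rw 1 [h5]
        rw [norm_add_sq_real, h3]; ring
      nlinarith [norm_nonneg (q - q'), norm_nonneg p, norm_nonneg ((q - q') - p),
        sq_nonneg ‖p‖]
    rw [h1]
    rw [dist_comm, dist_eq_norm] at hδ
    exact h2.trans hδ
  have hzq' : dist z q' ≤ δ := by
    have h1 : dist z q' = ‖p‖ := by rw [dist_eq_norm]; congr 1; rw [hz]; abel
    have h2 : ‖p‖ ≤ ‖q - q'‖ := by
      have h3 : inner ℝ ((q - q') - p) p = (0 : ℝ) :=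
        Submodule.starProjection_inner_eq_zero (q - q') p hpD
      have h4 : ‖q - q'‖ ^ 2 = ‖(q - q') - p‖ ^ 2 + ‖p‖ ^ 2 := by
        have h5 : q - q' = ((q - q') - p) + p := by abel
        nth_rw 1 [h5]
        rw [norm_add_sq_real, h3]; ring
      nlinarith [norm_nonneg (q - q'), norm_nonneg p, norm_nonneg ((q - q') - p),
        sq_nonneg ‖(q - q') - p‖]
    rw [h1]
    rw [dist_comm, dist_eq_norm] at hδ
    exact h2.trans hδ
  have hzq'D : z - q' ∈ D' := by
    have : z - q' = p := by rw [hz]; abel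
    rw [this]; exact hpD
  have hsub1 : N X q ρ ⊆ N X z (ρ - δ) := fun g hg =>
    N_move hg (hzfix g hg) (by linarith)
  have hsub2 : N X q' ρ ⊆ N X z (ρ - δ) := fun g hg =>
    N_move hg ((sub_mem_D.mp hzq'D) g hg) (by linarith)
  have hzm : m ≤ finrank ℝ (D X z (ρ - δ)) :=
    (hmin z).trans (Submodule.finrank_mono (D_mono (by linarith)))
  have e1 : D X z (ρ - δ) = D X q ρ :=
    Submodule.eq_of_le_of_finrank_le (D_le_of_subset hsub1) (by rw [hq]; exact hzm)
  have e2 : D X z (ρ - δ) = D' :=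
    Submodule.eq_of_le_of_finrank_le (D_le_of_subset hsub2) (by rw [hq']; exact hzm)
  apply hbad
  have h1 : z - q ∈ D X q ρ := sub_mem_D.mpr hzfix
  have h2 : z - q' ∈ D X q ρ := by rw [← e1, e2]; exact hzq'D
  have : q' - q = (z - q) - (z - q') := by abel
  rw [this]
  exact (D X q ρ).sub_mem h1 h2

end Pool.Agent.H186R3.Del
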