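import Mathlib
import Pool.Agent.H186R3.Del2

set_option autoImplicit false
set_option linter.unusedSectionVars false

/-! Near-identity local symmetries vanish at radius `O(d) R`. -/

namespace Pool.Agent.H186R3.Del

open Metric Module Filter Topology

variable {E : Type*} [NormedAddCommGroup E] [InnerProductSpace ℝ E] [FiniteDimensional ℝ E]

theorem finite_inter {X : Set E} {r : ℝ} (hr : 0 < r)
    (hsep : ∀ x ∈ X, ∀ y ∈ X, x ≠ y → r ≤ dist x y) (p : E) (L : ℝ) :
    (X ∩ closedBall p L).Finite := by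
  by_contra hinf
  have hinf' : (X ∩ closedBall p L).Infinite := hinf
  have : ProperSpace E := FiniteDimensional.proper ℝ E
  obtain ⟨a, _, ha⟩ := hinf'.exists_accPt_of_subset_isCompact (isCompact_closedBall p L)
    Set.inter_subset_right
  rw [accPt_iff_nhds] at ha
  obtain ⟨y, ⟨hy1, hy2⟩, hya⟩ := ha (ball a (r / 2)) (ball_mem_nhds a (by positivity))
  have hdy : 0 < dist y a := dist_pos.mpr hya
  obtain ⟨w, ⟨hw1, hw2⟩, hwa⟩ := ha (ball a (min (r / 2) (dist y a)))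
    (ball_mem_nhds a (by positivity))
  have hyw : y ≠ w := by
    rintro rfl
    rw [mem_ball] at hw1
    exact absurd (lt_of_lt_of_le hw1 (min_le_right _ _)) (lt_irrefl _)
  have h1 := hsep y hy2.1 w hw2.1 hyw
  have h2 := dist_triangle_right y w a
  rw [mem_ball] at hy1 hw1
  have h3 := lt_of_lt_of_le hw1 (min_le_left _ _)
  linarith

theorem exists_unit_orth (W : Submodule ℝ E) (hW : W ≠ ⊤) :
    ∃ n : E, ‖n‖ = 1 ∧ ∀ w ∈ W, inner ℝ w n = (0 : ℝ) := by
  have h1 : Wᗮ ≠ ⊥ := by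
    intro h
    exact hW ((Submodule.orthogonal_eq_bot_iff).mp h)
  obtain ⟨v, hv, hv0⟩ := (Submodule.ne_bot_iff _).mp h1
  have hn : ‖v‖ ≠ 0 := norm_ne_zero_iff.mpr hv0
  refine ⟨(‖v‖)⁻¹ • v, ?_, ?_⟩
  · rw [norm_smul, norm_inv, norm_norm, inv_mul_cancel₀ hn]
  · intro w hw
    rw [inner_smul_right, (Submodule.mem_orthogonal _ _).mp hv w hw, mul_zero]

theorem rigid {X : Set E} {R : ℝ} (hR : 0 < R) (hcov : ∀ p : E, ∃ x ∈ X, dist p x ≤ R)
    (p : E) {g h : E ≃ᵢ E} (hgh : ∀ z ∈ X ∩ closedBall p (3 * R), g z = h z) : g = h := by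
  let W : Submodule ℝ E :=
    { carrier := {v | lin g v = lin h v}
      add_mem' := by
        intro a b ha hb
        simp only [Set.mem_ofPred_eq] at ha hb ⊢
        rw [map_add, map_add, ha, hb]
      zero_mem' := by simp
      smul_mem' := by
        intro c x hx
        simp only [Set.mem_ofPred_eq] at hx ⊢
        rw [map_smul, map_smul, hx] }
  have hmem : ∀ v, v ∈ W ↔ lin g v = lin h v := fun v => Iff.rfl
  have hdiff : ∀ z ∈ X ∩ closedBall p (3 * R), ∀ w ∈ X ∩ closedBall p (3 * R), z - w ∈ W := by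
    intro z hz w hw
    rw [hmem, lin_sub, lin_sub, hgh z hz, hgh w hw]
  have hnear : ∀ n : E, ‖n‖ = 1 → ∃ x ∈ X ∩ closedBall p (3 * R), R ≤ inner ℝ (x - p) n := by
    intro n hn
    obtain ⟨x, hx, hxd⟩ := hcov (p + (2 * R) • n)
    have h1 : ‖x - (p + (2 * R) • n)‖ ≤ R := by rw [← dist_eq_norm, dist_comm]; exact hxd
    refine ⟨x, ⟨hx, ?_⟩, ?_⟩
    · rw [mem_closedBall, dist_eq_norm]
      have h2 : x - p = (x - (p + (2 * R) • n)) + (2 * R) • n := by abel
      rw [h2]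
      refine (norm_add_le _ _).trans ?_
      rw [norm_smul, hn, Real.norm_of_nonneg (by positivity)]
      linarith
    · have h2 : x - p = (x - (p + (2 * R) • n)) + (2 * R) • n := by abel
      rw [h2, inner_add_left, inner_smul_left, real_inner_self_eq_norm_sq, hn]
      have h3 := abs_real_inner_le_norm (x - (p + (2 * R) • n)) n
      rw [hn, mul_one] at h3
      have h4 := (abs_le.mp (h3.trans h1)).1
      simp
      linarith
  have hW : W = ⊤ := by
    by_contra hW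
    obtain ⟨n, hn, hn2⟩ := exists_unit_orth W hW
    obtain ⟨x, hx, hx2⟩ := hnear n hn
    obtain ⟨y, hy, hy2⟩ := hnear (-n) (by rw [norm_neg, hn])
    have h1 := hn2 _ (hdiff x hx y hy)
    have h2 : x - y = (x - p) - (y - p) := by abel
    rw [h2, inner_sub_left] at h1
    rw [inner_neg_right] at hy2
    linarith
  obtain ⟨x, hx, -⟩ := hcov p
  obtain ⟨x0, hx0, hx0d⟩ := hcov p
  have hx0' : x0 ∈ X ∩ closedBall p (3 * R) := ⟨hx0, by
    rw [mem_closedBall, dist_comm]; linarith⟩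
  ext z
  have h1 : z - x0 ∈ W := by rw [hW]; trivial
  rw [hmem, lin_sub, lin_sub, hgh x0 hx0'] at h1
  exact sub_left_injective h1

theorem finite_isoms {X : Set E} {r R : ℝ} (hr : 0 < r) (hR : 0 < R)
    (hsep : ∀ x ∈ X, ∀ y ∈ X, x ≠ y → r ≤ dist x y)
    (hcov : ∀ p : E, ∃ x ∈ X, dist p x ≤ R) (p : E) (L : ℝ) :
    {g : E ≃ᵢ E | ∀ z ∈ X ∩ closedBall p (3 * R), g z ∈ X ∩ closedBall p L}.Finite := by
  have : Finite (X ∩ closedBall p (3 * R) : Set E) := finite_inter hr hsep p (3 * R)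
  have : Finite (X ∩ closedBall p L : Set E) := finite_inter hr hsep p L
  rw [← Set.finite_coe_iff]
  let f : {g : E ≃ᵢ E | ∀ z ∈ X ∩ closedBall p (3 * R), g z ∈ X ∩ closedBall p L} →
      ((X ∩ closedBall p (3 * R) : Set E) → (X ∩ closedBall p L : Set E)) :=
    fun g z => ⟨g.1 z.1, g.2 z.1 z.2⟩
  apply Finite.of_injective f
  intro g h hgh
  apply Subtype.ext
  apply rigid hR hcov p
  intro z hz
  have := congrFun hgh ⟨z, hz⟩
  exact congrArg Subtype.val this

/-- the initial pair -/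
theorem initial {X : Set E} {R ρ ρf : ℝ} {m : ℕ} (hR : 0 < R)
    (hcov : ∀ p : E, ∃ x ∈ X, dist p x ≤ R)
    (htr : ∀ x ∈ X, ∀ y ∈ X, ∃ g : E ≃ᵢ E, g x = y ∧ LS X g x ρf) (hρf : ρ + R ≤ ρf)
    (hmin : ∀ z, m ≤ finrank ℝ (D X z ρ)) {q : E} (hq : finrank ℝ (D X q ρ) = m)
    (hm : m < finrank ℝ E) :
    ∃ q', finrank ℝ (D X q' ρ) = m ∧ q' - q ∉ D X q ρ ∧ dist q' q ≤ 5 * R := by
  have htop : D X q ρ ≠ ⊤ := by
    intro h
    rw [h, finrank_top] at hq
    omega
  obtain ⟨n, hn, hn2⟩ := exists_unit_orth _ htop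
  obtain ⟨x0, hx0, hx0d⟩ := hcov q
  obtain ⟨x, hx, hxd⟩ := hcov (q + (3 * R) • n)
  obtain ⟨g, hgx, hg⟩ := htr x0 hx0 x hx
  have h1 : dist (g q) (q + (3 * R) • n) ≤ 2 * R := by
    have h2 : dist (g q) x ≤ R := by rw [← hgx, g.dist_eq]; exact hx0d
    have h3 := dist_triangle (g q) x (q + (3 * R) • n)
    rw [dist_comm x] at h3
    linarith
  rw [dist_eq_norm] at h1
  refine ⟨g q, ?_, ?_, ?_⟩
  · apply le_antisymm _ (hmin _)
    rw [← hq]
    apply finrank_conj
    exact hg.mono (by linarith)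
  · intro hmem
    have h2 := hn2 _ hmem
    have h3 : g q - q = (g q - (q + (3 * R) • n)) + (3 * R) • n := by abel
    rw [h3, inner_add_left, inner_smul_left, real_inner_self_eq_norm_sq, hn] at h2
    have h4 := abs_real_inner_le_norm (g q - (q + (3 * R) • n)) n
    rw [hn, mul_one] at h4
    have h5 := (abs_le.mp (h4.trans h1)).1
    simp at h2
    linarith
  · rw [dist_eq_norm]
    have h3 : g q - q = (g q - (q + (3 * R) • n)) + (3 * R) • n := by abel
    rw [h3]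
    refine (norm_add_le _ _).trans ?_
    rw [norm_smul, hn, Real.norm_of_nonneg (by positivity)]
    linarith

/-- radius at stage `n` -/
noncomputable def rad (ρ R : ℝ) (n : ℕ) : ℝ := ρ - 10 * R * (1 - 1 / 2 ^ n)

/-- the main contradiction -/
theorem stage {X : Set E} {r R ρ0 ρf : ℝ} {m : ℕ} (hr : 0 < r) (hR : 0 < R)
    (hsep : ∀ x ∈ X, ∀ y ∈ X, x ≠ y → r ≤ dist x y)
    (hcov : ∀ p : E, ∃ x ∈ X, dist p x ≤ R)
    (htr : ∀ x ∈ X, ∀ y ∈ X, ∃ g : E ≃ᵢ E, g x = y ∧ LS X g x ρf)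
    (hρ0 : 4 * R ≤ ρ0) (hρf : ρ0 + 12 * R ≤ ρf)
    (hmin : ∀ z, m ≤ finrank ℝ (D X z ρ0)) (hm : m < finrank ℝ E) (q : E) :
    m + 1 ≤ finrank ℝ (D X q (ρ0 + 11 * R)) := by
  by_contra hcon
  push Not at hcon
  have hmin2 : ∀ z, m ≤ finrank ℝ (D X z (ρ0 + 11 * R)) := fun z =>
    (hmin z).trans (Submodule.finrank_mono (D_mono (by linarith)))
  have hq : finrank ℝ (D X q (ρ0 + 11 * R)) = m := by
    have := hmin2 q
    omega
  obtain ⟨q1, hq1, hbad, hd⟩ := initial hR hcov htr (by linarith) hmin2 hq hm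
  -- the sequence
  let P : ℕ → E × E → Prop := fun n p =>
    finrank ℝ (D X p.1 (rad (ρ0 + 11 * R) R n)) = m ∧
    finrank ℝ (D X p.2 (rad (ρ0 + 11 * R) R n)) = m ∧
    p.2 - p.1 ∉ D X p.1 (rad (ρ0 + 11 * R) R n) ∧ dist p.2 p.1 ≤ 5 * R / 2 ^ n
  have hrad0 : rad (ρ0 + 11 * R) R 0 = ρ0 + 11 * R := by unfold rad; norm_num
  have hradge : ∀ n, ρ0 + R ≤ rad (ρ0 + 11 * R) R n := by
    intro n
    unfold rad
    have : (0 : ℝ) < 1 / 2 ^ n := by positivity
    nlinarith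
  have hstep : ∀ n p, P n p → ∃ q'', P (n + 1) (p.2, q'') := by
    rintro n ⟨a, b⟩ ⟨h1, h2, h3, h4⟩
    simp only at h1 h2 h3 h4
    have hpos : (0 : ℝ) < 1 / 2 ^ n := by positivity
    have e0 : 5 * R / 2 ^ n = 5 * R * (1 / 2 ^ n) := by ring
    have e1 : rad (ρ0 + 11 * R) R n - 5 * R / 2 ^ n = rad (ρ0 + 11 * R) R (n + 1) := by
      unfold rad
      rw [pow_succ]
      field_simp
      ring
    have e2 : ρ0 + 2 * (5 * R / 2 ^ n) ≤ rad (ρ0 + 11 * R) R n := by
      unfold rad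
      rw [e0]
      nlinarith
    obtain ⟨q'', h5, h6, h7⟩ := descent hmin h1 h2 h3 h4 e2
    rw [e1] at h5 h6
    refine ⟨q'', ?_, h5, h6, ?_⟩
    · exact finrank_stable hmin h2 (by linarith [hradge (n + 1)])
        (by rw [← e1, e0]; nlinarith)
    · simp only
      rw [pow_succ]
      calc dist q'' b ≤ 5 * R / 2 ^ n / 2 := h7
        _ = 5 * R / (2 ^ n * 2) := by rw [div_div]
  choose F hF using hstep
  let s : (n : ℕ) → {p : E × E // P n p} := fun n => Nat.rec
    (⟨(q, q1), by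
      refine ⟨?_, ?_, ?_, ?_⟩
      · change finrank ℝ (D X q (rad (ρ0 + 11 * R) R 0)) = m
        rw [hrad0]; exact hq
      · change finrank ℝ (D X q1 (rad (ρ0 + 11 * R) R 0)) = m
        rw [hrad0]; exact hq1
      · change q1 - q ∉ D X q (rad (ρ0 + 11 * R) R 0)
        rw [hrad0]; exact hbad
      · simpa using hd⟩ : {p : E × E // P 0 p})
    (fun n p => ⟨(p.1.2, F n p.1 p.2), hF n p.1 p.2⟩) n
  have hs : ∀ n, (s (n + 1)).1.1 = (s n).1.2 := fun n => rfl
  let t : ℕ → E := fun n => (s n).1.1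
  have ht1 : ∀ n, finrank ℝ (D X (t n) (rad (ρ0 + 11 * R) R n)) = m := fun n => (s n).2.1
  have ht2 : ∀ n, t (n + 1) - t n ∉ D X (t n) (rad (ρ0 + 11 * R) R n) := fun n => (s n).2.2.2.1
  have ht3 : ∀ n, dist (t n) (t (n + 1)) ≤ 10 * R / 2 / 2 ^ n := by
    intro n
    have h := (s n).2.2.2.2
    rw [dist_comm]
    calc dist (t (n + 1)) (t n) ≤ 5 * R / 2 ^ n := h
      _ = 10 * R / 2 / 2 ^ n := by ring
  obtain ⟨a, ha⟩ := cauchySeq_tendsto_of_complete (cauchySeq_of_le_geometric_two ht3)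
  -- finitely many isometries
  have hfin := finite_isoms hr hR hsep hcov a (5 * R)
  -- all elements of N (t n) eventually fix a
  have hev : ∀ᶠ n in atTop, dist (t n) a ≤ R ∧
      ∀ g ∈ N X (t n) (ρ0 + R), g a = a := by
    have hlt : ∀ᶠ n in atTop, dist (t n) a < R :=
      (tendsto_iff_dist_tendsto_zero.mp ha).eventually_lt_const hR
    have hall : ∀ᶠ n in atTop, ∀ g ∈ {g : E ≃ᵢ E | ∀ z ∈ X ∩ closedBall a (3 * R),
        g z ∈ X ∩ closedBall a (5 * R)}, g a ≠ a → g (t n) ≠ t n := by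
      rw [eventually_all_finite hfin]
      intro g _
      by_cases hga : g a = a
      · filter_upwards with n h; exact absurd hga h
      · have h1 : Tendsto (fun n => dist (g (t n)) (t n)) atTop (𝓝 (dist (g a) a)) :=
          ((g.continuous.tendsto a).comp ha).dist ha
        have h2 : 0 < dist (g a) a := dist_pos.mpr hga
        filter_upwards [h1.eventually_const_lt h2] with n hn _ h3
        rw [h3, dist_self] at hn
        exact lt_irrefl _ hn
    filter_upwards [hlt, hall] with n h1 h2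
    refine ⟨h1.le, fun g hg => ?_⟩
    by_contra hga
    refine h2 g ?_ hga hg.1
    intro z hz
    have hza : dist z a ≤ 3 * R := hz.2
    have h3 : dist z (t n) ≤ 4 * R := by
      have := dist_triangle_right z (t n) a
      linarith
    have h4 : g z ∈ X := (hg.2.1 z (by linarith)).1 hz.1
    refine ⟨h4, ?_⟩
    rw [mem_closedBall]
    have h5 : dist (g z) (t n) ≤ 4 * R := by
      have : dist (g z) (t n) = dist (g z) (g (t n)) := by rw [hg.1]
      rw [this, g.dist_eq]; exact h3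
    have := dist_triangle (g z) (t n) a
    linarith
  obtain ⟨n, ⟨hn1, hn2⟩, hn3, hn4⟩ := (hev.and ((tendsto_add_atTop_nat 1).eventually hev)).exists
  -- contradiction
  have key : ∀ k, dist (t k) a ≤ R → (∀ g ∈ N X (t k) (ρ0 + R), g a = a) →
      D X a ρ0 = D X (t k) (ρ0 + R) := by
    intro k h1 h2
    have h3 : finrank ℝ (D X (t k) (ρ0 + R)) = m :=
      finrank_stable hmin (ht1 k) (by linarith) (hradge k)
    apply Submodule.eq_of_le_of_finrank_le
    · apply D_le_of_subset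
      intro g hg
      exact N_move hg (h2 g hg) (by rw [dist_comm]; linarith)
    · rw [h3]; exact hmin a
  have k1 := key n hn1 hn2
  have k2 := key (n + 1) hn3 hn4
  have m1 : a - t n ∈ D X a ρ0 := by rw [k1]; exact sub_mem_D.mpr hn2
  have m2 : a - t (n + 1) ∈ D X a ρ0 := by rw [k2]; exact sub_mem_D.mpr hn4
  apply ht2 n
  have h5 : t (n + 1) - t n ∈ D X a ρ0 := by
    have : t (n + 1) - t n = (a - t n) - (a - t (n + 1)) := by abel
    rw [this]
    exact (D X a ρ0).sub_mem m1 m2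
  rw [k1] at h5
  exact D_mono (hradge n) h5

/-- near-identity local symmetries are trivial at radius `4 R + 11 d R`. -/
theorem D_top {X : Set E} {r R ρf : ℝ} (hr : 0 < r) (hR : 0 < R)
    (hsep : ∀ x ∈ X, ∀ y ∈ X, x ≠ y → r ≤ dist x y)
    (hcov : ∀ p : E, ∃ x ∈ X, dist p x ≤ R)
    (htr : ∀ x ∈ X, ∀ y ∈ X, ∃ g : E ≃ᵢ E, g x = y ∧ LS X g x ρf)
    (hρf : 5 * R + 11 * R * (finrank ℝ E) ≤ ρf) (q : E) :
    D X q (4 * R + 11 * R * (finrank ℝ E)) = ⊤ := by
  have h : ∀ j : ℕ, j ≤ finrank ℝ E → ∀ z, j ≤ finrank ℝ (D X z (4 * R + 11 * R * j)) := by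
    intro j
    induction j with
    | zero => intro _ z; exact Nat.zero_le _
    | succ j ih =>
      intro hj z
      have hj' : (j : ℝ) + 1 ≤ finrank ℝ E := by exact_mod_cast hj
      have h1 := stage (ρ0 := 4 * R + 11 * R * j) hr hR hsep hcov htr
        (by have : 0 ≤ 11 * R * (j : ℝ) := by positivity
            linarith)
        (by nlinarith) (ih (by omega)) (by omega) z
      have e : 4 * R + 11 * R * ((j + 1 : ℕ) : ℝ) = 4 * R + 11 * R * j + 11 * R := by
        push_cast; ring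
      rw [e]
      exact h1
  apply Submodule.eq_top_of_finrank_eq
  exact le_antisymm (Submodule.finrank_le _) (h _ le_rfl q)

theorem N_trivial {X : Set E} {r R ρf : ℝ} (hr : 0 < r) (hR : 0 < R)
    (hsep : ∀ x ∈ X, ∀ y ∈ X, x ≠ y → r ≤ dist x y)
    (hcov : ∀ p : E, ∃ x ∈ X, dist p x ≤ R)
    (htr : ∀ x ∈ X, ∀ y ∈ X, ∃ g : E ≃ᵢ E, g x = y ∧ LS X g x ρf)
    (hρf : 5 * R + 11 * R * (finrank ℝ E) ≤ ρf) (q : E) (g : E ≃ᵢ E)
    (hg : g ∈ N X q (4 * R + 11 * R * (finrank ℝ E))) : g = 1 := by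
  have h := D_top hr hR hsep hcov htr hρf q
  ext z
  have h1 : z - q ∈ D X q (4 * R + 11 * R * (finrank ℝ E)) := by rw [h]; trivial
  rw [sub_mem_D] at h1
  rw [h1 g hg, IsometryEquiv.coe_one]
  rfl

end Pool.Agent.H186R3.Del
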