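import Mathlib
import Pool.Agent.H186R3.Del3

set_option autoImplicit false
set_option linter.unusedSectionVars false

/-! The local theorem and the counting argument. -/

namespace Pool.Agent.H186R3.Del

open Metric Module Filter Topology

variable {E : Type*} [NormedAddCommGroup E] [InnerProductSpace ℝ E] [FiniteDimensional ℝ E]

/-- the local symmetry group -/
def S (X : Set E) (x : E) (ρ : ℝ) : Subgroup (E ≃ᵢ E) where
  carrier := {g | g x = x ∧ LS X g x ρ}
  mul_mem' := by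
    rintro g h ⟨hg1, hg2⟩ ⟨hh1, hh2⟩
    refine ⟨?_, ?_⟩
    · rw [IsometryEquiv.mul_apply, hh1, hg1]
    · apply LS.mul _ hh2
      rw [hh1]; exact hg2
  one_mem' := ⟨rfl, LS.one⟩
  inv_mem' := by
    rintro g ⟨h1, h2⟩
    have h3 : g⁻¹ x = x := by
      have : g⁻¹ (g x) = x := g.symm_apply_apply x
      rwa [h1] at this
    refine ⟨h3, ?_⟩
    have := h2.inv
    rwa [h1] at this

theorem mem_S {X : Set E} {x : E} {ρ : ℝ} {g : E ≃ᵢ E} :
    g ∈ S X x ρ ↔ g x = x ∧ LS X g x ρ := Iff.rfl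

theorem S_anti {X : Set E} {x : E} {ρ ρ' : ℝ} (h : ρ' ≤ ρ) : S X x ρ ≤ S X x ρ' :=
  fun _ hg => ⟨hg.1, hg.2.mono' h⟩

/-- chains with steps at most `3 R` connect any two points of `X` -/
theorem chain_ind {X : Set E} {R : ℝ} (hR : 0 < R) (hcov : ∀ p : E, ∃ x ∈ X, dist p x ≤ R)
    (Q : E → Prop) (hstep : ∀ x ∈ X, ∀ y ∈ X, dist x y ≤ 3 * R → Q x → Q y)
    {x y : E} (hx : x ∈ X) (hy : y ∈ X) (hQ : Q x) : Q y := by
  obtain ⟨n, hn⟩ := exists_nat_gt (dist y x / R)
  have hn0 : (0 : ℝ) < n := lt_of_le_of_lt (by positivity) hn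
  have hn1 : dist y x ≤ R * n := by
    rw [div_lt_iff₀ hR] at hn
    linarith
  have h : ∀ i : ℕ, ∀ z ∈ X, dist z (x + ((i : ℝ) / n) • (y - x)) ≤ R → Q z := by
    intro i
    induction i with
    | zero =>
      intro z hz hd
      simp only [Nat.cast_zero, zero_div, zero_smul, add_zero] at hd
      exact hstep x hx z hz (by rw [dist_comm]; linarith) hQ
    | succ i ih =>
      intro z hz hd
      obtain ⟨w, hw, hwd⟩ := hcov (x + ((i : ℝ) / n) • (y - x))
      have h1 : Q w := ih w hw (by rw [dist_comm]; exact hwd)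
      refine hstep w hw z hz ?_ h1
      have h2 : dist (x + ((i : ℝ) / n) • (y - x)) (x + (((i + 1 : ℕ) : ℝ) / n) • (y - x)) ≤ R := by
        rw [dist_add_left, dist_eq_norm, ← sub_smul, norm_smul]
        have : (i : ℝ) / n - ((i + 1 : ℕ) : ℝ) / n = - (1 / n) := by push_cast; ring
        rw [this, norm_neg, Real.norm_of_nonneg (by positivity), ← dist_eq_norm]
        rw [one_div, inv_mul_le_iff₀ hn0, mul_comm]
        exact hn1
      have h3 := dist_triangle w (x + ((i : ℝ) / n) • (y - x)) z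
      have h4 := dist_triangle (x + ((i : ℝ) / n) • (y - x))
        (x + (((i + 1 : ℕ) : ℝ) / n) • (y - x)) z
      have h5 : dist w (x + ((i : ℝ) / n) • (y - x)) ≤ R := by rw [dist_comm]; exact hwd
      have h6 : dist (x + (((i + 1 : ℕ) : ℝ) / n) • (y - x)) z ≤ R := by
        rw [dist_comm]; exact hd
      linarith
  apply h n y hy
  rw [div_self hn0.ne', one_smul]
  have : x + (y - x) = y := by abel
  rw [this, dist_self]
  exact hR.le

/-- the local theorem -/
theorem local_theorem {X : Set E} {R ρ : ℝ} (hR : 0 < R) (hρ : 0 ≤ ρ)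
    (hcov : ∀ p : E, ∃ x ∈ X, dist p x ≤ R)
    (htr : ∀ x ∈ X, ∀ y ∈ X, ∃ g : E ≃ᵢ E, g x = y ∧ LS X g x (ρ + 3 * R))
    (hS : ∀ x ∈ X, S X x ρ ≤ S X x (ρ + 3 * R)) :
    ∀ x ∈ X, ∀ y ∈ X, ∃ g : E ≃ᵢ E, g x = y ∧ g '' X = X := by
  have key : ∀ g : E ≃ᵢ E, ∀ x ∈ X, g x ∈ X → LS X g x (ρ + 3 * R) → ∀ z ∈ X, g z ∈ X := by
    intro g x hx hgx hg z hz
    have := chain_ind hR hcov (fun z => g z ∈ X ∧ LS X g z (ρ + 3 * R)) ?_ hx hz ⟨hgx, hg⟩
    · exact this.1
    · rintro a ha b hb hab ⟨h1, h2⟩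
      have h3 : g b ∈ X := (h2 b (by rw [dist_comm]; linarith)).1 hb
      refine ⟨h3, ?_⟩
      have h4 : LS X g b ρ := h2.mono (by rw [dist_comm]; linarith)
      obtain ⟨h, hh1, hh2⟩ := htr b hb (g b) h3
      have h5 : h⁻¹ * g ∈ S X b ρ := by
        refine ⟨?_, ?_⟩
        · rw [IsometryEquiv.mul_apply, ← hh1]
          exact h.symm_apply_apply b
        · apply LS.mul _ h4
          rw [← hh1]
          exact (hh2.mono' (by linarith)).inv
      have h6 := hS b hb h5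
      have h7 : g = h * (h⁻¹ * g) := by group
      rw [h7]
      apply LS.mul _ h6.2
      rw [h6.1]
      exact hh2
  intro x hx y hy
  obtain ⟨g, hg1, hg2⟩ := htr x hx y hy
  refine ⟨g, hg1, ?_⟩
  apply Set.Subset.antisymm
  · rintro _ ⟨z, hz, rfl⟩
    exact key g x hx (by rw [hg1]; exact hy) hg2 z hz
  · intro z hz
    refine ⟨g⁻¹ z, ?_, g.apply_symm_apply z⟩
    have h1 : g⁻¹ y = x := by rw [← hg1]; exact g.symm_apply_apply x
    have h2 : LS X g⁻¹ y (ρ + 3 * R) := by rw [← hg1]; exact hg2.inv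
    exact key g⁻¹ y hy (by rw [h1]; exact hx) h2 z hz

/-- conjugation between the local groups at two points of `X` -/
theorem S_conj {X : Set E} {x : E} {ρ : ℝ} {h g : E ≃ᵢ E} (hh : h ∈ S X x ρ)
    (hg : LS X g x ρ) : g * h * g⁻¹ ∈ S X (g x) ρ := by
  obtain ⟨h1, h2⟩ := hh
  have e1 : g⁻¹ (g x) = x := g.symm_apply_apply x
  refine ⟨?_, ?_⟩
  · rw [IsometryEquiv.mul_apply, IsometryEquiv.mul_apply, e1, h1]
  · apply LS.mul
    · rw [e1]
      apply LS.mul
      · rw [h1]; exact hg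
      · exact h2
    · exact hg.inv

theorem S_transfer {X : Set E} {x y : E} {ρ ρ' ρf : ℝ} {g : E ≃ᵢ E} (hg1 : g x = y)
    (hg : LS X g x ρf) (h1 : ρ ≤ ρf) (h2 : ρ' ≤ ρf) (hS : S X x ρ ≤ S X x ρ') :
    S X y ρ ≤ S X y ρ' := by
  intro h hh
  have e1 : g⁻¹ y = x := by rw [← hg1]; exact g.symm_apply_apply x
  have hginv : LS X g⁻¹ y ρf := by rw [← hg1]; exact hg.inv
  have h3 := S_conj hh (hginv.mono' h1)
  rw [e1] at h3
  have h4 := S_conj (hS h3) (hg.mono' h2)
  rw [hg1] at h4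
  have h5 : g * (g⁻¹ * h * g⁻¹⁻¹) * g⁻¹ = h := by group
  rwa [h5] at h4

/-- cardinality bound for the local group at radius `4 R + 11 d R` -/
theorem card_S {X : Set E} {r R ρf : ℝ} (hr : 0 < r) (hR : 0 < R)
    (hsep : ∀ x ∈ X, ∀ y ∈ X, x ≠ y → r ≤ dist x y)
    (hcov : ∀ p : E, ∃ x ∈ X, dist p x ≤ R)
    (htr : ∀ x ∈ X, ∀ y ∈ X, ∃ g : E ≃ᵢ E, g x = y ∧ LS X g x ρf)
    (hρf : 5 * R + 11 * R * (finrank ℝ E) ≤ ρf) (x : E) :
    Finite (S X x (4 * R + 11 * R * (finrank ℝ E))) ∧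
    Nat.card (S X x (4 * R + 11 * R * (finrank ℝ E))) ≤ 5 ^ ((finrank ℝ E) ^ 2) := by
  set G := S X x (4 * R + 11 * R * (finrank ℝ E)) with hG
  let φ : G → (E →L[ℝ] E) := fun g => (2 : ℝ) • ((lin g.1).toContinuousLinearEquiv : E →L[ℝ] E)
  have hφ2 : ∀ g, ‖φ g‖ ≤ 2 := by
    intro g
    apply ContinuousLinearMap.opNorm_le_bound _ (by norm_num)
    intro v
    change ‖(2 : ℝ) • (lin g.1 v)‖ ≤ 2 * ‖v‖
    rw [norm_smul, (lin g.1).norm_map]
    norm_num
  have hsepφ : ∀ g h : G, g ≠ h → 1 ≤ ‖φ g - φ h‖ := by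
    intro g h hgh
    by_contra hcon
    push Not at hcon
    apply hgh
    have h1 : (h.1)⁻¹ * g.1 = 1 := by
      apply N_trivial hr hR hsep hcov htr hρf x
      have h2 : (h⁻¹ * g : G).1 ∈ G := (h⁻¹ * g).2
      refine ⟨h2.1, h2.2, ?_⟩
      intro v
      rw [lin_mul]
      have h3 : lin (h.1)⁻¹ (lin g.1 v) - v = lin (h.1)⁻¹ (lin g.1 v - lin h.1 v) := by
        rw [map_sub, lin_inv_lin]
      rw [h3, (lin (h.1)⁻¹).norm_map]
      have h4 : (φ g - φ h) v = (2 : ℝ) • (lin g.1 v - lin h.1 v) := by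
        change (2 : ℝ) • (lin g.1 v) - (2 : ℝ) • (lin h.1 v) = _
        rw [smul_sub]
      have h5 := (φ g - φ h).le_opNorm v
      rw [h4, norm_smul] at h5
      have h6 : ‖φ g - φ h‖ * ‖v‖ ≤ 1 * ‖v‖ :=
        mul_le_mul_of_nonneg_right hcon.le (norm_nonneg v)
      norm_num at h5
      linarith
    apply Subtype.ext
    have h7 : g.1 = h.1 * ((h.1)⁻¹ * g.1) := by group
    rw [h7, h1, mul_one]
  have hinj : Function.Injective φ := by
    intro g h hgh
    by_contra hne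
    have := hsepφ g h hne
    rw [hgh, sub_self, norm_zero] at this
    linarith
  have hfr : finrank ℝ (E →L[ℝ] E) = (finrank ℝ E) ^ 2 := by
    rw [← (LinearMap.toContinuousLinearMap : (E →ₗ[ℝ] E) ≃ₗ[ℝ] (E →L[ℝ] E)).finrank_eq,
      Module.finrank_linearMap, sq]
  have hbound : ∀ s : Finset G, s.card ≤ 5 ^ ((finrank ℝ E) ^ 2) := by
    intro s
    classical
    have h1 := Besicovitch.card_le_of_separated (s.image φ)
      (by
        intro c hc
        obtain ⟨g, _, rfl⟩ := Finset.mem_image.mp hc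
        exact hφ2 g)
      (by
        intro c hc e he hce
        obtain ⟨g, _, rfl⟩ := Finset.mem_image.mp hc
        obtain ⟨h, _, rfl⟩ := Finset.mem_image.mp he
        exact hsepφ g h (fun hh => hce (by rw [hh])))
    rw [Finset.card_image_of_injective _ hinj, hfr] at h1
    exact h1
  have hfin : Finite G := by
    by_contra hinf
    rw [not_finite_iff_infinite] at hinf
    obtain ⟨s, hs⟩ := Infinite.exists_subset_card_eq G (5 ^ ((finrank ℝ E) ^ 2) + 1)
    have := hbound s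
    omega
  refine ⟨hfin, ?_⟩
  have : Fintype G := Fintype.ofFinite G
  rw [Nat.card_eq_fintype_card]
  exact hbound Finset.univ

/-- Main theorem: `O(d²) R` suffices. -/
theorem main {X : Set E} {r R ρf : ℝ} (hr : 0 < r) (hR : 0 < R)
    (hsep : ∀ x ∈ X, ∀ y ∈ X, x ≠ y → r ≤ dist x y)
    (hcov : ∀ p : E, ∃ x ∈ X, dist p x ≤ R)
    (htr : ∀ x ∈ X, ∀ y ∈ X, ∃ g : E ≃ᵢ E, g x = y ∧ LS X g x ρf)
    (hρf : (9 * (finrank ℝ E : ℝ) ^ 2 + 11 * (finrank ℝ E) + 8) * R ≤ ρf) :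
    ∀ x ∈ X, ∀ y ∈ X, ∃ g : E ≃ᵢ E, g x = y ∧ g '' X = X := by
  set d := finrank ℝ E with hd
  set ρs : ℝ := 4 * R + 11 * R * d with hρs
  set K := 3 * d ^ 2 with hK
  have hKR : ρs + 3 * R * (K + 1) ≤ ρf := by
    rw [hρs, hK]; push_cast
    nlinarith
  have hd0 : (0 : ℝ) ≤ d := Nat.cast_nonneg d
  have hK0 : (0 : ℝ) ≤ K := Nat.cast_nonneg K
  have hρ5 : 5 * R + 11 * R * d ≤ ρf := by
    have : 0 ≤ R * K := by positivity
    rw [hρs] at hKR
    nlinarith
  obtain ⟨x0, hx0, -⟩ := hcov 0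
  obtain ⟨hfin, hcard⟩ := card_S hr hR hsep hcov htr hρ5 x0
  -- the chain of local groups
  have hex : ∃ k ≤ K, S X x0 (ρs + 3 * R * k) ≤ S X x0 (ρs + 3 * R * k + 3 * R) := by
    by_contra hcon
    push Not at hcon
    have hcardk : ∀ k ≤ K + 1, Nat.card (S X x0 (ρs + 3 * R * k)) * 2 ^ k ≤
        Nat.card (S X x0 ρs) := by
      intro k
      induction k with
      | zero => intro _; simp
      | succ k ih =>
        intro hk
        have h1 := ih (by omega)
        have h2 := hcon k (by omega)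
        have e : ρs + 3 * R * ((k + 1 : ℕ) : ℝ) = ρs + 3 * R * k + 3 * R := by push_cast; ring
        rw [e]
        have hle : S X x0 (ρs + 3 * R * k + 3 * R) ≤ S X x0 (ρs + 3 * R * k) :=
          S_anti (by linarith)
        have hfk : Finite (S X x0 (ρs + 3 * R * k)) := by
          have hle2 : S X x0 (ρs + 3 * R * k) ≤ S X x0 ρs := S_anti (by
            have : 0 ≤ 3 * R * (k : ℝ) := by positivity
            linarith)
          exact Finite.of_injective (Subgroup.inclusion hle2)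
            (Subgroup.inclusion_injective hle2)
        have h3 := Subgroup.card_mul_index
          ((S X x0 (ρs + 3 * R * k + 3 * R)).subgroupOf (S X x0 (ρs + 3 * R * k)))
        have h4 : Nat.card ((S X x0 (ρs + 3 * R * k + 3 * R)).subgroupOf
            (S X x0 (ρs + 3 * R * k))) = Nat.card (S X x0 (ρs + 3 * R * k + 3 * R)) :=
          Nat.card_congr (Subgroup.subgroupOfEquivOfLe hle).toEquiv
        rw [h4] at h3
        have h5 : 2 ≤ ((S X x0 (ρs + 3 * R * k + 3 * R)).subgroupOf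
            (S X x0 (ρs + 3 * R * k))).index := by
          have h6 : ((S X x0 (ρs + 3 * R * k + 3 * R)).subgroupOf
            (S X x0 (ρs + 3 * R * k))).index ≠ 1 := by
            intro h7
            rw [Subgroup.index_eq_one, Subgroup.subgroupOf_eq_top] at h7
            exact h2 h7
          have h8 : ((S X x0 (ρs + 3 * R * k + 3 * R)).subgroupOf
            (S X x0 (ρs + 3 * R * k))).index ≠ 0 := by
            intro h9
            rw [h9, mul_zero] at h3
            exact absurd h3.symm Nat.card_pos.ne'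
          omega
        calc Nat.card (S X x0 (ρs + 3 * R * k + 3 * R)) * 2 ^ (k + 1)
            = (Nat.card (S X x0 (ρs + 3 * R * k + 3 * R)) * 2) * 2 ^ k := by ring
          _ ≤ Nat.card (S X x0 (ρs + 3 * R * k)) * 2 ^ k := by
            apply Nat.mul_le_mul_right
            rw [← h3]
            exact Nat.mul_le_mul_left _ h5
          _ ≤ _ := h1
    have h1 := hcardk (K + 1) le_rfl
    have hfK : Finite (S X x0 (ρs + 3 * R * ((K + 1 : ℕ) : ℝ))) := by
      have hle2 : S X x0 (ρs + 3 * R * ((K + 1 : ℕ) : ℝ)) ≤ S X x0 ρs := S_anti (by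
        have : 0 ≤ 3 * R * ((K + 1 : ℕ) : ℝ) := by positivity
        linarith)
      exact Finite.of_injective (Subgroup.inclusion hle2)
        (Subgroup.inclusion_injective hle2)
    have h2 : 1 ≤ Nat.card (S X x0 (ρs + 3 * R * ((K + 1 : ℕ) : ℝ))) := Nat.card_pos
    have h3 : 2 ^ (K + 1) ≤ 5 ^ (d ^ 2) := by
      calc 2 ^ (K + 1) = 1 * 2 ^ (K + 1) := (one_mul _).symm
        _ ≤ _ := Nat.mul_le_mul_right _ h2
        _ ≤ _ := h1
        _ ≤ _ := hcard
    have h4 : 5 ^ (d ^ 2) ≤ 2 ^ K := by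
      rw [hK, pow_mul]
      exact Nat.pow_le_pow_left (by norm_num) _
    have h5 : 2 ^ K < 2 ^ (K + 1) := Nat.pow_lt_pow_right (by norm_num) (by omega)
    omega
  obtain ⟨k, hk, hSk⟩ := hex
  have hkR : (k : ℝ) ≤ K := by exact_mod_cast hk
  have hρk : ρs + 3 * R * k + 3 * R ≤ ρf := by nlinarith
  apply local_theorem (ρ := ρs + 3 * R * k) hR (by positivity) hcov
  · intro x hx y hy
    obtain ⟨g, hg1, hg2⟩ := htr x hx y hy
    exact ⟨g, hg1, hg2.mono' hρk⟩
  · intro x hx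
    obtain ⟨g, hg1, hg2⟩ := htr x0 hx0 x hx
    exact S_transfer hg1 hg2 (by linarith) hρk hSk

end Pool.Agent.H186R3.Del
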