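import Mathlib

set_option autoImplicit false

/-! Group theoretic part: an element with two different costs. -/

namespace Pool.Agent.H186R3.L1

variable {G : Type} [Group G]

/-- second difference of the sequence `g` at `a` with step `b` -/
def gam (g : ℤ → G) (a b : ℤ) : G := g (a - b) * (g a)⁻¹ * g (a + b) * (g a)⁻¹

section
variable (C : ℕ → G → Prop)

/-- `y = x * (element of cost n)` -/
def near (n : ℕ) (x y : G) : Prop := C n (x⁻¹ * y)

variable {C}

theorem near_refl (h1 : C 0 1) (x : G) : near C 0 x x := by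
  unfold near; simpa using h1

theorem near_trans (hm : ∀ a b x y, C a x → C b y → C (a + b) (x * y)) {a b : ℕ} {x y z : G}
    (h : near C a x y) (h' : near C b y z) : near C (a + b) x z := by
  unfold near at *
  have := hm _ _ _ _ h h'
  have e : x⁻¹ * y * (y⁻¹ * z) = x⁻¹ * z := by group
  rwa [e] at this

theorem near_mul (hm : ∀ a b x y, C a x → C b y → C (a + b) (x * y))
    (hc : ∀ a x c, C a x → C a (c * x * c⁻¹)) {a b : ℕ} {x y x' y' : G}
    (h : near C a x y) (h' : near C b x' y') : near C (a + b) (x * x') (y * y') := by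
  unfold near at *
  have h2 := hc _ _ x'⁻¹ h
  have := hm _ _ _ _ h2 h'
  have e : x'⁻¹ * (x⁻¹ * y) * x'⁻¹⁻¹ * (x'⁻¹ * y') = (x * x')⁻¹ * (y * y') := by group
  rwa [e] at this

/-- ratio sequence -/
def rr (g : ℤ → G) (l : ℤ) : G := g l * (g (l - 1))⁻¹

theorem near_rr (h1 : C 0 1) (hm : ∀ a b x y, C a x → C b y → C (a + b) (x * y))
    (g : ℤ → G) (hg : ∀ a : ℤ, C 2 (gam g a 1)) (l : ℤ) (s : ℕ) :
    near C (2 * s) (rr g l) (rr g (l + s)) := by
  induction s with
  | zero => simpa using near_refl h1 (rr g l)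
  | succ s ih =>
    have h : near C 2 (rr g (l + s)) (rr g (l + (s + 1 : ℕ))) := by
      unfold near
      have := hg (l + s)
      have e : (rr g (l + s))⁻¹ * rr g (l + (s + 1 : ℕ)) = gam g (l + s) 1 := by
        unfold rr gam
        have e2 : l + ((s + 1 : ℕ) : ℤ) - 1 = l + s := by push_cast; ring
        have e3 : l + ((s + 1 : ℕ) : ℤ) = l + s + 1 := by push_cast; ring
        rw [e2, e3]; group
      rw [e]; exact this
    exact near_trans hm ih h

theorem near_block (h1 : C 0 1) (hm : ∀ a b x y, C a x → C b y → C (a + b) (x * y))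
    (hc : ∀ a x c, C a x → C a (c * x * c⁻¹))
    (g : ℤ → G) (hg : ∀ a : ℤ, C 2 (gam g a 1)) (a : ℤ) (b m : ℕ) :
    near C (2 * b * m) (g a * (g (a - m))⁻¹) (g (a + b) * (g (a + b - m))⁻¹) := by
  induction m with
  | zero => simpa using near_refl h1 1
  | succ m ih =>
    have h := near_rr h1 hm g hg (a - m) b
    have := near_mul hm hc ih h
    have e1 : g a * (g (a - m))⁻¹ * rr g (a - m) = g a * (g (a - (m + 1 : ℕ)))⁻¹ := by
      unfold rr
      have : a - (m : ℤ) - 1 = a - ((m + 1 : ℕ) : ℤ) := by push_cast; ring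
      rw [this]; group
    have e2 : g (a + b) * (g (a + b - m))⁻¹ * rr g (a - m + b)
        = g (a + b) * (g (a + b - (m + 1 : ℕ)))⁻¹ := by
      unfold rr
      have h1 : a - (m : ℤ) + b = a + b - m := by ring
      have h2 : a - (m : ℤ) + b - 1 = a + b - ((m + 1 : ℕ) : ℤ) := by push_cast; ring
      rw [h2, h1]; group
    rw [e1, e2] at this
    have e3 : 2 * b * m + 2 * b = 2 * b * (m + 1) := by ring
    rwa [e3] at this

/-- `gam g a b` has cost `2 b ^ 2` -/
theorem gam_expensive (h1 : C 0 1) (hm : ∀ a b x y, C a x → C b y → C (a + b) (x * y))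
    (hc : ∀ a x c, C a x → C a (c * x * c⁻¹))
    (g : ℤ → G) (hg : ∀ a : ℤ, C 2 (gam g a 1)) (a : ℤ) (b : ℕ) :
    C (2 * b * b) (gam g a b) := by
  have := near_block h1 hm hc g hg a b b
  unfold near at this
  have e : (g a * (g (a - b))⁻¹)⁻¹ * (g (a + b) * (g (a + b - b))⁻¹) = gam g a b := by
    unfold gam
    have : a + (b : ℤ) - b = a := by ring
    rw [this]; group
  rwa [e] at this

theorem pow_cost (h1 : C 0 1) (hm : ∀ a b x y, C a x → C b y → C (a + b) (x * y))
    {n : ℕ} {x : G} (h : C n x) (q : ℕ) : C (q * n) (x ^ q) := by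
  induction q with
  | zero => simpa using h1
  | succ q ih =>
    have := hm _ _ _ _ ih h
    rw [pow_succ, add_mul, one_mul]; exact this

/-- the powers `E ^ t`, `1 ≤ t ≤ B`, all have the same cost. -/
theorem power_cost (h1 : C 0 1) (hm : ∀ a b x y, C a x → C b y → C (a + b) (x * y))
    (hc : ∀ a x c, C a x → C a (c * x * c⁻¹))
    (g : ℤ → G) (hg : ∀ (a : ℤ) (b : ℕ), C (2 * b) (gam g a b)) (B t : ℕ) (ht : 1 ≤ t)
    (htB : t ≤ B) : C (2 * (B - 1) * B * B) ((gam g 0 B ^ (B - 1)) ^ t) := by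
  have hexp := gam_expensive h1 hm hc g (fun a => by simpa using hg a 1) 0 B
  have hch := hg 0 B
  have hle : B - t ≤ (B - 1) * t := by
    obtain ⟨B', rfl⟩ : ∃ B', B = B' + 1 := ⟨B - 1, by omega⟩
    obtain ⟨t', rfl⟩ : ∃ t', t = t' + 1 := ⟨t - 1, by omega⟩
    simp only [Nat.add_sub_cancel]
    have : B' + 1 - (t' + 1) ≤ B' := by omega
    nlinarith
  have h := hm _ _ _ _ (pow_cost h1 hm hexp (B - t)) (pow_cost h1 hm hch ((B - 1) * t - (B - t)))
  rw [← pow_add, Nat.add_sub_cancel' hle] at h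
  rw [← pow_mul]
  have e : (B - t) * (2 * B * B) + ((B - 1) * t - (B - t)) * (2 * B) = 2 * (B - 1) * B * B := by
    obtain ⟨s, rfl⟩ : ∃ s, B = t + s := ⟨B - t, by omega⟩
    obtain ⟨t', rfl⟩ : ∃ t', t = t' + 1 := ⟨t - 1, by omega⟩
    have k1 : t' + 1 + s - (t' + 1) = s := by omega
    have k2 : t' + 1 + s - 1 = t' + s := by omega
    rw [k1, k2] at hle ⊢
    have h3 : (t' + s) * (t' + 1) - s + s = (t' + s) * (t' + 1) := Nat.sub_add_cancel hle
    generalize (t' + s) * (t' + 1) - s = Z at h3 ⊢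
    have h4 : (Z : ℤ) + s = (t' + s) * (t' + 1) := by exact_mod_cast h3
    zify
    have h5 : (Z : ℤ) = (t' + s) * (t' + 1) - s := by linarith
    rw [h5]; ring
  rw [e] at h
  exact h

end

end Pool.Agent.H186R3.L1
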