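import Mathlib

set_option autoImplicit false

/-! Every compact Hausdorff right topological semigroup contains a group `p M p`. -/

namespace Pool.Agent.H186R3.MinGroup

universe u
set_option linter.unusedSectionVars false
variable {M : Type u} [Semigroup M] [TopologicalSpace M] [CompactSpace M] [T2Space M] [Nonempty M]

/-- closed nonempty left ideals -/
def LIdeals (M : Type*) [Semigroup M] [TopologicalSpace M] : Set (Set M) :=
  { N | IsClosed N ∧ N.Nonempty ∧ ∀ x : M, ∀ y ∈ N, x * y ∈ N }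

theorem exists_minimal : ∃ L : Set M, Minimal (· ∈ LIdeals M) L := by
  refine zorn_superset _ fun c hcs hc => ?_
  refine ⟨⋂₀ c, ⟨isClosed_sInter fun t ht => (hcs ht).1, ?_, fun x y hy => ?_⟩, fun s hs =>
      Set.sInter_subset_of_mem hs⟩
  · obtain rfl | hcnemp := c.eq_empty_or_nonempty
    · rw [Set.sInter_empty]
      apply Set.univ_nonempty
    convert!
      @IsCompact.nonempty_iInter_of_directed_nonempty_isCompact_isClosed _ _ _ hcnemp.coe_sort
        ((↑) : c → Set M) ?_ ?_ ?_ ?_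
    · exact Set.sInter_eq_iInter
    · refine DirectedOn.directed_val (IsChain.directedOn hc.symm)
    exacts [fun i => (hcs i.prop).2.1, fun i => (hcs i.prop).1.isCompact, fun i => (hcs i.prop).1]
  · rw [Set.mem_sInter]
    exact fun t ht => (hcs ht).2.2 x y (Set.mem_sInter.mp hy t ht)

theorem exists_group (hcont : ∀ r : M, Continuous (· * r)) :
    ∃ (G : Type u) (_ : Group G) (f : G → M),
      (∀ a b : G, f (a * b) = f a * f b) ∧ Function.Injective f ∧
      ∀ m : M, ∃ g : G, f g = f 1 * m * f 1 := by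
  obtain ⟨L, hL⟩ := exists_minimal (M := M)
  obtain ⟨hLc, hLn, hLi⟩ := hL.prop
  obtain ⟨p, hpL, hpp⟩ := exists_idempotent_in_compact_subsemigroup hcont L hLn hLc.isCompact
    (fun x _ y hy => hLi x y hy)
  -- every principal left ideal inside L equals L
  have hprin : ∀ y ∈ L, ∀ z ∈ L, ∃ x : M, x * y = z := by
    intro y hy z hz
    have h1 : (· * y) '' (Set.univ : Set M) = L := by
      apply hL.eq_of_subset
      · refine ⟨?_, ⟨_, ⟨y, trivial, rfl⟩⟩, ?_⟩
        · exact (hcont y).isClosedMap _ isClosed_univ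
        · rintro x _ ⟨w, -, rfl⟩
          exact ⟨x * w, trivial, mul_assoc _ _ _⟩
      · rintro _ ⟨w, -, rfl⟩
        exact hLi w y hy
    rw [← h1] at hz
    obtain ⟨x, -, hx⟩ := hz
    exact ⟨x, hx⟩
  let G : Type u := { u : M // u ∈ L ∧ p * u = u }
  have hright : ∀ u ∈ L, u * p = u := by
    intro u hu
    obtain ⟨x, hx⟩ := hprin p hpL u hu
    rw [← hx, mul_assoc, hpp]
  have hinv : ∀ u : G, ∃ v : G, v.1 * u.1 = p := by
    rintro ⟨u, hu, hpu⟩
    obtain ⟨x, hx⟩ := hprin u hu p hpL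
    have hxp : p * (x * p) * u = p := by
      rw [mul_assoc, mul_assoc x p u, hpu, hx, hpp]
    exact ⟨⟨p * (x * p), hLi _ _ (hLi _ _ hpL), by rw [← mul_assoc, hpp]⟩, hxp⟩
  choose inv hinv using hinv
  let _ : Mul G := ⟨fun a b => ⟨a.1 * b.1, hLi _ _ b.2.1, by rw [← mul_assoc, a.2.2]⟩⟩
  let _ : One G := ⟨⟨p, hpL, hpp⟩⟩
  let _ : Inv G := ⟨inv⟩
  let _ : Group G := Group.ofLeftAxioms
    (fun a b c => Subtype.ext (mul_assoc _ _ _))
    (fun a => Subtype.ext a.2.2)
    (fun a => Subtype.ext (hinv a))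
  refine ⟨G, inferInstance, fun u => u.1, fun a b => rfl, Subtype.val_injective, fun m => ?_⟩
  exact ⟨⟨p * m * p, hLi _ _ hpL, by rw [← mul_assoc, ← mul_assoc, hpp]⟩, rfl⟩

end Pool.Agent.H186R3.MinGroup
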