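import Mathlib
import Pool.Agent.H186R3.MinGroup

set_option autoImplicit false

/-! Realisation of families of ultrafilters on words by aligned families of words of given cost. -/

namespace Pool.Agent.H186R3.L1

open Filter

attribute [local instance] Ultrafilter.mul Ultrafilter.semigroup

variable {S : Type} [Monoid S] {I : Type} {K : Type} [AddCommMonoid K]

/-- `R P a u` : the family of ultrafilters `u` is in the closure of `P a`. -/
def R (P : K → (I → S) → Prop) (a : K) (u : I → Ultrafilter S) : Prop :=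
  ∀ A : I → Set S, (∀ i, A i ∈ u i) → ∃ x : I → S, P a x ∧ ∀ i, x i ∈ A i

theorem R_mul {P : K → (I → S) → Prop}
    (hP : ∀ a b x y, P a x → P b y → P (a + b) (fun i => x i * y i))
    {a b : K} {u v : I → Ultrafilter S} (hu : R P a u) (hv : R P b v) :
    R P (a + b) (fun i => u i * v i) := by
  intro A hA
  have h0 : ∀ i, {m : S | {m' : S | m * m' ∈ A i} ∈ v i} ∈ u i := by
    intro i
    have := hA i
    exact (Ultrafilter.eventually_mul (u i) (v i) (fun m => m ∈ A i)).1 this
  obtain ⟨x, hx, hxA⟩ := hu _ h0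
  obtain ⟨y, hy, hyA⟩ := hv (fun i => {m' : S | x i * m' ∈ A i}) (fun i => hxA i)
  exact ⟨_, hP _ _ _ _ hx hy, fun i => hyA i⟩

theorem R_diag {P : K → (I → S) → Prop} [Finite I]
    (hP : ∀ x : S, P 0 (fun _ => x)) (u : Ultrafilter S) : R P 0 (fun _ => u) := by
  intro A hA
  have h : (⋂ i, A i) ∈ u := by
    have := (Filter.iInter_mem (f := (u : Filter S)) (s := A)).2 hA
    exact this
  obtain ⟨x, hx⟩ := Ultrafilter.nonempty_of_mem h
  exact ⟨fun _ => x, hP x, fun i => Set.mem_iInter.1 hx i⟩

theorem R_pure {P : K → (I → S) → Prop} {a : K} {x : I → S} (h : P a x) :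
    R P a (fun i => (pure (x i) : Ultrafilter S)) := by
  intro A hA
  exact ⟨x, h, fun i => hA i⟩

end Pool.Agent.H186R3.L1
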