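import Mathlib
import Pool.Agent.H186R3.L1Real

set_option autoImplicit false

/-! Words, columns and the reduction of the lattice problem to a statement about groups. -/

namespace Pool.Agent.H186R3.L1

open Filter

attribute [local instance] Ultrafilter.mul Ultrafilter.semigroup

/-- coefficient vectors of 1-norm at most `r` -/
def Lam (r t : ℕ) : Type := {l : Fin t → ℤ // ∑ j, |l j| ≤ (r : ℤ)}

instance (r t : ℕ) : Finite (Lam r t) := by
  have hfin : Set.Finite {l : Fin t → ℤ | ∑ j, |l j| ≤ (r : ℤ)} := by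
    apply Set.Finite.subset (Set.finite_Icc (fun _ : Fin t => -(r : ℤ)) (fun _ => (r : ℤ)))
    intro l hl
    have h1 : ∀ j, |l j| ≤ (r : ℤ) := by
      intro j
      refine le_trans ?_ hl
      exact Finset.single_le_sum (f := fun j => |l j|) (fun i _ => abs_nonneg _) (Finset.mem_univ j)
    constructor
    · intro j; exact (abs_le.1 (h1 j)).1
    · intro j; exact (abs_le.1 (h1 j)).2
  exact hfin.to_subtype

/-- a column: base value and a direction vector with at most one nonzero entry -/
structure Col (t : ℕ) where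
  a : ℤ
  b : Fin t → ℤ
  disj : ∀ j j', j ≠ j' → b j = 0 ∨ b j' = 0

/-- the letter at coefficient vector `l` -/
def Col.val {t : ℕ} (c : Col t) (l : Fin t → ℤ) : ℤ := c.a + ∑ j, l j * c.b j

/-- cost vector of a list of columns -/
def cost {t : ℕ} (cols : List (Col t)) : Fin t → ℕ := fun j => (cols.map fun c => (c.b j).natAbs).sum

/-- aligned families of words with cost vector `D` -/
def P (r t : ℕ) (D : Fin t → ℕ) (x : Lam r t → FreeMonoid ℤ) : Prop :=
  ∃ cols : List (Col t), (∀ i, x i = FreeMonoid.ofList (cols.map fun c => c.val i.1)) ∧ cost cols = D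

theorem P_mul (r t : ℕ) (D E : Fin t → ℕ) (x y : Lam r t → FreeMonoid ℤ) (hx : P r t D x)
    (hy : P r t E y) : P r t (D + E) (fun i => x i * y i) := by
  obtain ⟨c1, h1, h2⟩ := hx
  obtain ⟨c2, h3, h4⟩ := hy
  refine ⟨c1 ++ c2, fun i => ?_, ?_⟩
  · show x i * y i = _
    rw [h1, h3, List.map_append]; rfl
  · rw [← h2, ← h4]; funext j; simp [cost, List.sum_append]

theorem P_diag (r t : ℕ) (x : FreeMonoid ℤ) : P r t 0 (fun _ => x) := by
  refine ⟨(FreeMonoid.toList x).map fun a => ⟨a, 0, fun _ _ _ => Or.inl rfl⟩, fun i => ?_, ?_⟩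
  · simp [Col.val, Function.comp_def]
  · funext j; simp [cost, Function.comp_def]

theorem P_col (r t : ℕ) (a : ℤ) (j : Fin t) (b : ℤ) :
    P r t (Pi.single j b.natAbs) (fun i => FreeMonoid.of (a + i.1 j * b)) := by
  refine ⟨[⟨a, Pi.single j b, fun j1 j2 h => ?_⟩], fun i => ?_, ?_⟩
  · by_cases h1 : j1 = j
    · right; subst h1; simp [Pi.single_apply, h.symm]
    · left; simp [Pi.single_apply, h1]
  · simp only [List.map_cons, List.map_nil, Col.val]
    have : ∑ j' : Fin t, i.1 j' * (Pi.single j b : Fin t → ℤ) j' = i.1 j * b := by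
      simp [Pi.single_apply]
    rw [this]; rfl
  · funext j'
    by_cases h : j' = j
    · subst h; simp [cost]
    · simp [cost, Pi.single_apply, h]

/-- padding a word to a vector -/
def pad (n : ℕ) (w : List ℤ) : Fin n → ℤ := fun s => w.getD s 0

/-- The conclusion of the problem for parameters `r t k d n`. -/
def Concl (r t k d n : ℕ) : Prop :=
  ∀ c : (Fin n → ℤ) → Fin k,
        ∃ u : Fin t → Fin n → ℤ,
          (∀ i i' : Fin t, i ≠ i' → ∀ j : Fin n, u i j = 0 ∨ u i' j = 0) ∧
          (∀ i : Fin t, ∑ j : Fin n, |u i j| = (d : ℤ)) ∧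
          ∃ x : Fin n → ℤ, ∀ l : Fin t → ℤ, ∑ i : Fin t, |l i| ≤ (r : ℤ) →
            c (x + ∑ i : Fin t, l i • u i) = c x

theorem concl_of_cols {r t k d n : ℕ} (c : (Fin n → ℤ) → Fin k) (cols : List (Col t))
    (hlen : cols.length ≤ n) (hcost : cost cols = fun _ => d) (e : Fin k)
    (hmono : ∀ i : Lam r t, c (pad n (cols.map fun c => c.val i.1)) = e) :
        ∃ u : Fin t → Fin n → ℤ,
          (∀ i i' : Fin t, i ≠ i' → ∀ j : Fin n, u i j = 0 ∨ u i' j = 0) ∧
          (∀ i : Fin t, ∑ j : Fin n, |u i j| = (d : ℤ)) ∧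
          ∃ x : Fin n → ℤ, ∀ l : Fin t → ℤ, ∑ i : Fin t, |l i| ≤ (r : ℤ) →
            c (x + ∑ i : Fin t, l i • u i) = c x := by
  refine ⟨fun i => pad n (cols.map fun c => c.b i), ?_, ?_, pad n (cols.map fun c => c.a), ?_⟩
  · intro i i' hii j
    simp only [pad]
    by_cases hj : (j : ℕ) < cols.length
    · rw [List.getD_eq_getElem _ _ (by simpa using hj), List.getD_eq_getElem _ _ (by simpa using hj)]
      simp only [List.getElem_map]
      exact (cols[(j : ℕ)]).disj i i' hii
    · left
      rw [List.getD_eq_default _ _ (by simpa using hj)]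
  · intro i
    have h1 : ∀ (L : List (Col t)) (m : ℕ), L.length ≤ m →
        ∑ j : Fin m, |pad m (L.map fun c => c.b i) j| = ((L.map fun c => (c.b i).natAbs).sum : ℕ) := by
      intro L
      induction L with
      | nil => intro m _; simp [pad]
      | cons c0 L ih =>
        intro m hm
        obtain ⟨m', rfl⟩ : ∃ m', m = m' + 1 := ⟨m - 1, by simp at hm; omega⟩
        rw [Fin.sum_univ_succ]
        have h2 := ih m' (by simpa using hm)
        simp only [pad, List.map_cons, Fin.val_zero, List.getD_cons_zero, Fin.val_succ,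
          List.getD_cons_succ, List.sum_cons] at h2 ⊢
        rw [h2]; push_cast; simp
    have h2 := h1 cols n hlen
    rw [h2]
    have := congrFun hcost i
    unfold cost at this
    rw [this]
  · intro l hl
    have h0 : ∀ l : Fin t → ℤ, pad n (cols.map fun c => c.a) +
        ∑ i : Fin t, l i • pad n (cols.map fun c => c.b i) = pad n (cols.map fun c => c.val l) := by
      intro l
      funext j
      simp only [Pi.add_apply, Finset.sum_apply, Pi.smul_apply, smul_eq_mul, pad]
      by_cases hj : (j : ℕ) < cols.length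
      · rw [List.getD_eq_getElem _ _ (by simpa using hj), List.getD_eq_getElem _ _ (by simpa using hj)]
        simp only [List.getElem_map, Col.val]
        congr 1
        apply Finset.sum_congr rfl
        intro i _
        rw [List.getD_eq_getElem _ _ (by simpa using hj)]
        simp
      · rw [List.getD_eq_default _ _ (by simpa using hj), List.getD_eq_default _ _ (by simpa using hj)]
        rw [zero_add]
        apply Finset.sum_eq_zero
        intro i _
        rw [List.getD_eq_default _ _ (by simpa using hj), mul_zero]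
    rw [h0, hmono ⟨l, hl⟩]
    have h3 := h0 0
    simp only [Pi.zero_apply, zero_smul, Finset.sum_const_zero, add_zero] at h3
    rw [h3]
    exact (hmono ⟨0, by simp⟩).symm

/-- Compactness: it is enough to treat colourings of words. -/
theorem exists_dim (r t k d : ℕ)
    (H : ∀ κ : FreeMonoid ℤ → Fin k, ∃ x : Lam r t → FreeMonoid ℤ, P r t (fun _ => d) x ∧
      ∃ e, ∀ i, κ (x i) = e) : ∃ n, Concl r t k d n := by
  by_contra hcon
  push Not at hcon
  unfold Concl at hcon
  push Not at hcon
  choose c hc using hcon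
  have hex : ∀ w : FreeMonoid ℤ, ∃ e : Fin k,
      ∀ᶠ n in (hyperfilter ℕ : Filter ℕ), c n (pad n (FreeMonoid.toList w)) = e := by
    intro w
    obtain ⟨e, he⟩ := Ultrafilter.eq_pure_of_finite
      ((hyperfilter ℕ).map fun n => c n (pad n (FreeMonoid.toList w)))
    refine ⟨e, ?_⟩
    have : ({e} : Set (Fin k)) ∈ (hyperfilter ℕ).map fun n => c n (pad n (FreeMonoid.toList w)) := by
      rw [he]; exact rfl
    exact this
  choose κ hκ using hex
  obtain ⟨x, ⟨cols, hx, hcost⟩, e, he⟩ := H κ
  have h1 : ∀ᶠ n in (hyperfilter ℕ : Filter ℕ), ∀ i : Lam r t,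
      c n (pad n (FreeMonoid.toList (x i))) = e := by
    rw [eventually_all]
    intro i
    have := hκ (x i)
    rw [he i] at this
    exact this
  have h2 : ∀ᶠ n in (hyperfilter ℕ : Filter ℕ), cols.length ≤ n := by
    have : ∀ᶠ n in (atTop : Filter ℕ), cols.length ≤ n := eventually_ge_atTop _
    exact Nat.hyperfilter_le_atTop this
  obtain ⟨n, hn1, hn2⟩ := (h1.and h2).exists
  obtain ⟨u, hu1, hu2, y, hy⟩ := concl_of_cols (r := r) (c n) cols hn2 hcost e (fun i => by
    have := hn1 i
    rw [hx i] at this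
    exact this)
  obtain ⟨l, hl, hne⟩ := hc n u hu1 hu2 y
  exact hne (hy l hl)

/-- Reduction to a statement about a group inside the space of ultrafilters. -/
theorem reduction (r t k d : ℕ)
    (H : ∀ (G : Type) (_ : Group G) (f : G → Ultrafilter (FreeMonoid ℤ)) (g : ℤ → G),
      (∀ a b, f (a * b) = f a * f b) →
      (∀ l, f (g l) = f 1 * (pure (FreeMonoid.of l) : Ultrafilter (FreeMonoid ℤ)) * f 1) →
      ∀ κ : G → Fin k, ∃ y : Lam r t → G, R (P r t) (fun _ => d) (fun i => f (y i)) ∧
        ∃ e, ∀ i, κ (y i) = e) : ∃ n, Concl r t k d n := by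
  apply exists_dim
  intro κ
  obtain ⟨G, hG, f, hf, -, hsurj⟩ := MinGroup.exists_group (M := Ultrafilter (FreeMonoid ℤ))
    (fun r => Ultrafilter.continuous_mul_left r)
  choose g hg using fun l : ℤ => hsurj (pure (FreeMonoid.of l) : Ultrafilter (FreeMonoid ℤ))
  have hex : ∀ a : G, ∃ e : Fin k, {w | κ w = e} ∈ f a := by
    intro a
    obtain ⟨e, he⟩ := Ultrafilter.eq_pure_of_finite ((f a).map κ)
    refine ⟨e, ?_⟩
    have : ({e} : Set (Fin k)) ∈ (f a).map κ := by rw [he]; exact rfl
    exact this
  choose κ' hκ' using hex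
  obtain ⟨y, hy, e, he⟩ := H G hG f g hf hg κ'
  obtain ⟨x, hx, hxA⟩ := hy (fun _ => {w | κ w = e}) (fun i => by
    have := hκ' (y i)
    rw [he i] at this
    exact this)
  exact ⟨x, hx, e, hxA⟩

end Pool.Agent.H186R3.L1
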