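import Mathlib
import Pool.Agent.H186R3.L1Words
import Pool.Agent.H186R3.L1Group

set_option autoImplicit false

/-! The case `r = 1`. -/

namespace Pool.Agent.H186R3.L1

open Filter

attribute [local instance] Ultrafilter.mul Ultrafilter.semigroup

section
variable {r t : ℕ} {G : Type} [Group G] (f : G → Ultrafilter (FreeMonoid ℤ)) (g : ℤ → G)

/-- the family `y` of group elements is realised with cost vector `D` -/
def Cf (r t : ℕ) (f : G → Ultrafilter (FreeMonoid ℤ)) (D : Fin t → ℕ) (y : Lam r t → G) : Prop :=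
  R (P r t) D (fun i => f (y i))

variable {f g}

theorem Cf_mul (hf : ∀ a b, f (a * b) = f a * f b) {D E : Fin t → ℕ} {x y : Lam r t → G}
    (hx : Cf r t f D x) (hy : Cf r t f E y) : Cf r t f (D + E) (fun i => x i * y i) := by
  unfold Cf at *
  simp only [hf]
  exact R_mul (P_mul r t) hx hy

theorem Cf_diag (c : G) : Cf r t f 0 (fun _ => c) := R_diag (P_diag r t) (f c)

theorem Cf_col (hf : ∀ a b, f (a * b) = f a * f b)
    (hg : ∀ l, f (g l) = f 1 * (pure (FreeMonoid.of l) : Ultrafilter (FreeMonoid ℤ)) * f 1)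
    (a : ℤ) (j : Fin t) (b : ℤ) :
    Cf r t f (Pi.single j b.natAbs) (fun i => g (a + i.1 j * b)) := by
  unfold Cf
  simp only [hg]
  have h1 : R (P r t) 0 (fun _ => f (1 : G)) := R_diag (P_diag r t) (f 1)
  have h2 := R_mul (P_mul r t) (R_mul (P_mul r t) h1 (R_pure (P_col r t a j b))) h1
  simpa using h2

theorem Cf_congr {D E : Fin t → ℕ} {x y : Lam r t → G} (h : Cf r t f D x) (hD : D = E)
    (hx : ∀ i, x i = y i) : Cf r t f E y := by
  subst hD
  have : x = y := funext hx
  rwa [this] at h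

end

section One
variable {t : ℕ} {G : Type} [Group G] {f : G → Ultrafilter (FreeMonoid ℤ)} {g : ℤ → G}

/-- cost of `x` in direction `j` -/
def Cj (t : ℕ) (f : G → Ultrafilter (FreeMonoid ℤ)) (j : Fin t) (n : ℕ) (x : G) : Prop :=
  Cf 1 t f (Pi.single j n) (fun i => if i.1 j = 0 then 1 else x)

theorem Cj_one (j : Fin t) : Cj t f j 0 (1 : G) := by
  unfold Cj
  refine Cf_congr (Cf_diag 1) (by simp) (fun i => by simp)

theorem Cj_mul (hf : ∀ a b, f (a * b) = f a * f b) (j : Fin t) (a b : ℕ) (x y : G)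
    (hx : Cj t f j a x) (hy : Cj t f j b y) : Cj t f j (a + b) (x * y) := by
  unfold Cj at *
  refine Cf_congr (Cf_mul hf hx hy) (by rw [← Pi.single_add]) (fun i => ?_)
  by_cases h : i.1 j = 0 <;> simp [h]

theorem Cj_conj (hf : ∀ a b, f (a * b) = f a * f b) (j : Fin t) (a : ℕ) (x c : G)
    (hx : Cj t f j a x) : Cj t f j a (c * x * c⁻¹) := by
  unfold Cj at *
  refine Cf_congr (Cf_mul hf (Cf_mul hf (Cf_diag c) hx) (Cf_diag c⁻¹)) (by simp) (fun i => ?_)
  by_cases h : i.1 j = 0 <;> simp [h]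

theorem lam_one (i : Lam 1 t) (j : Fin t) : i.1 j = 0 ∨ i.1 j = 1 ∨ i.1 j = -1 := by
  have h1 : |i.1 j| ≤ 1 := by
    refine le_trans ?_ i.2
    exact Finset.single_le_sum (f := fun j => |i.1 j|) (fun _ _ => abs_nonneg _) (Finset.mem_univ j)
  rw [abs_le] at h1
  omega

theorem Cj_gam (hf : ∀ a b, f (a * b) = f a * f b)
    (hg : ∀ l, f (g l) = f 1 * (pure (FreeMonoid.of l) : Ultrafilter (FreeMonoid ℤ)) * f 1)
    (j : Fin t) (a : ℤ) (b : ℕ) : Cj t f j (2 * b) (gam g a b) := by
  unfold Cj
  have h1 : Cf 1 t f (Pi.single j b) (fun i => g (a + i.1 j * b) * (g a)⁻¹) := by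
    refine Cf_congr (Cf_mul hf (Cf_col hf hg a j b) (Cf_diag (g a)⁻¹)) (by simp) (fun i => rfl)
  have h2 : Cf 1 t f (Pi.single j b) (fun i => g (a + i.1 j * (-b)) * (g a)⁻¹) := by
    refine Cf_congr (Cf_mul hf (Cf_col hf hg a j (-b)) (Cf_diag (g a)⁻¹)) (by simp) (fun i => rfl)
  set β := g (a + b) * (g a)⁻¹ with hβ
  have h3 := Cf_mul hf h1 (Cf_mul hf (Cf_mul hf (Cf_diag β⁻¹) h2) (Cf_diag β))
  refine Cf_congr h3 (by rw [zero_add, add_zero, ← Pi.single_add, two_mul]) (fun i => ?_)
  rcases lam_one i j with h | h | h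
  · simp [h]
  · rw [if_neg (by rw [h]; decide)]
    simp only [h, one_mul, gam, ← sub_eq_add_neg, ← hβ]
    rw [hβ]; group
  · rw [if_neg (by rw [h]; decide)]
    have e1 : a + -1 * (b : ℤ) = a - b := by ring
    have e2 : a + -1 * -(b : ℤ) = a + b := by ring
    simp only [h, e1, e2, gam, ← hβ]
    rw [hβ]; group

/-- Combining the directions. -/
theorem Cf_all (hf : ∀ a b, f (a * b) = f a * f b) (d : ℕ) (x : G)
    (h : ∀ j : Fin t, Cj t f j d x) :
    Cf 1 t f (fun _ => d) (fun i => if i.1 = 0 then 1 else x) := by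
  have key : ∀ L : List (Fin t), Cf 1 t f ((L.map fun j => Pi.single j d).sum)
      (fun i => (L.map fun j => if i.1 j = 0 then (1 : G) else x).prod) := by
    intro L
    induction L with
    | nil => exact Cf_diag 1
    | cons j L ih =>
      refine Cf_congr (Cf_mul hf (h j) ih) (by simp) (fun i => by simp)
  refine Cf_congr (key (List.finRange t)) ?_ (fun i => ?_)
  · funext j
    have e1 : ((List.finRange t).map fun j => (Pi.single j d : Fin t → ℕ)).sum
        = ∑ j : Fin t, Pi.single j d := by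
      rw [← List.ofFn_eq_map, List.sum_ofFn]
    rw [e1, Finset.sum_apply]
    simp
  · by_cases h0 : i.1 = 0
    · simp [h0]
    · rw [if_neg h0]
      obtain ⟨j0, hj0⟩ : ∃ j0, i.1 j0 ≠ 0 := by
        by_contra hcon
        push Not at hcon
        exact h0 (funext hcon)
      have h1 : ∀ j, i.1 j = 0 ↔ j ≠ j0 := by
        intro j
        constructor
        · rintro h rfl; exact hj0 h
        · intro hne
          by_contra hj
          have h2 : |i.1 j| + |i.1 j0| ≤ ∑ j, |i.1 j| := by
            have h6 := Finset.sum_le_sum_of_subset_of_nonneg (f := fun j => |i.1 j|)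
              (Finset.subset_univ ({j, j0} : Finset (Fin t))) (fun _ _ _ => abs_nonneg _)
            rw [Finset.sum_pair hne] at h6
            exact h6
          have h3 : (1 : ℤ) ≤ |i.1 j| := Int.one_le_abs hj
          have h4 : (1 : ℤ) ≤ |i.1 j0| := Int.one_le_abs hj0
          have h5 := i.2
          push_cast at h5
          linarith
      have h2 : ∀ L : List (Fin t), (L.map fun j => if i.1 j = 0 then (1 : G) else x).prod
          = x ^ (L.count j0) := by
        intro L
        induction L with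
        | nil => simp
        | cons j L ih =>
          rw [List.map_cons, List.prod_cons, ih]
          by_cases hj : j = j0
          · subst hj
            rw [if_neg hj0, List.count_cons_self, pow_succ']
          · rw [if_pos ((h1 j).2 hj), one_mul, List.count_cons_of_ne hj]
      rw [h2, List.count_eq_one_of_mem (List.nodup_finRange t) (List.mem_finRange j0), pow_one]

end One

/-- The case `r = 1` of the problem, with an explicit `d`. -/
theorem ball_one (t k : ℕ) :
    ∃ n, Concl 1 t k (2 * (k + 1) * (k + 2) * (k + 2)) n := by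
  apply reduction
  intro G _ f g hf hg κ
  set E : G := gam g 0 ((k + 2 : ℕ) : ℤ) ^ (k + 1) with hE
  have hpig : ∃ a b : Fin (k + 1), a < b ∧ κ (E ^ (a : ℕ)) = κ (E ^ (b : ℕ)) := by
    obtain ⟨a, b, hab, he⟩ := Fintype.exists_ne_map_eq_of_card_lt
      (fun a : Fin (k + 1) => κ (E ^ (a : ℕ))) (by simp)
    rcases lt_or_gt_of_ne hab with h | h
    · exact ⟨a, b, h, he⟩
    · exact ⟨b, a, h, he.symm⟩
  obtain ⟨a, b, hab, he⟩ := hpig
  have hab' : (a : ℕ) < b := hab
  have hcost : ∀ j : Fin t, Cj t f j (2 * (k + 1) * (k + 2) * (k + 2)) (E ^ ((b : ℕ) - a)) := by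
    intro j
    have := power_cost (C := Cj t f j) (Cj_one j) (Cj_mul hf j) (fun a x c h => Cj_conj hf j a x c h)
      g (fun a b => Cj_gam hf hg j a b) (k + 2) ((b : ℕ) - a) (by omega) (by omega)
    have e1 : k + 2 - 1 = k + 1 := by omega
    rw [e1] at this
    exact this
  have h1 := Cf_mul hf (Cf_diag (E ^ (a : ℕ))) (Cf_all hf _ _ hcost)
  refine ⟨fun i => E ^ (a : ℕ) * (if i.1 = 0 then 1 else E ^ ((b : ℕ) - a)), ?_,
    κ (E ^ (a : ℕ)), fun i => ?_⟩
  · have := h1
    rw [zero_add] at this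
    exact this
  · by_cases h0 : i.1 = 0
    · simp [h0]
    · simp only [if_neg h0]
      rw [← pow_add, Nat.add_sub_cancel' hab'.le, he]

end Pool.Agent.H186R3.L1
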