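import Mathlib

set_option autoImplicit false

namespace Pool.Agent.H186R3.MinkArr

/-- x-offsets (unit 1/41400) of the nine disks attached to a lattice point. -/
def offA : Fin 9 → ℤ := ![0, 20700, 21291, 20109, 20700, -20700, -21291, -20109, -20700]
/-- y-offsets (unit √3/41400) -/
def offB : Fin 9 → ℤ := ![0, 6900, 7097, 7097, 6506, -6900, -7097, -7097, -6506]
/-- radii (unit 1/41400) -/
def rad : Fin 9 → ℤ := ![23460, 578, 136, 136, 136, 578, 136, 136, 136]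
/-- radii of the cores (unit 1/41400) -/
def mrad : Fin 9 → ℤ := ![17940, 442, 104, 104, 104, 442, 104, 104, 104]

theorem mrad_eq : ∀ k, 17 * mrad k = 13 * rad k := by decide

theorem finite_check : ∀ k k' : Fin 9, ∀ i : Fin 5, ∀ j : Fin 3,
    (k ≠ k' ∨ ((i : ℕ) : ℤ) - 2 ≠ 0 ∨ ((j : ℕ) : ℤ) - 1 ≠ 0) →
    (rad k + mrad k') ^ 2 ≤
      (offA k - offA k' + 41400 * (((i : ℕ) : ℤ) - 2) + 20700 * (((j : ℕ) : ℤ) - 1)) ^ 2
      + 3 * (offB k - offB k' + 20700 * (((j : ℕ) : ℤ) - 1)) ^ 2 := by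
  decide +kernel

theorem bounds : ∀ k k' : Fin 9, |offA k - offA k'| ≤ 42582 ∧ |offB k - offB k'| ≤ 14194 ∧
    0 < rad k + mrad k' ∧ rad k + mrad k' ≤ 41400 ∧ 0 < rad k ∧ 136 ≤ rad k ∧ rad k ≤ 41400 := by
  decide +kernel

theorem int_check (k k' : Fin 9) (M N : ℤ) (h : k ≠ k' ∨ M ≠ 0 ∨ N ≠ 0) :
    (rad k + mrad k') ^ 2 ≤
      (offA k - offA k' + 41400 * M + 20700 * N) ^ 2
      + 3 * (offB k - offB k' + 20700 * N) ^ 2 := by
  obtain ⟨hA, hB, hK0, hK, -, -, -⟩ := bounds k k'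
  rw [abs_le] at hA hB
  have hKsq : (rad k + mrad k') ^ 2 ≤ 41400 ^ 2 := by nlinarith
  by_cases hN : 2 ≤ N ∨ N ≤ -2
  · have h1 : (27206 : ℤ) ^ 2 ≤ (offB k - offB k' + 20700 * N) ^ 2 := by
      rcases hN with hN | hN
      · nlinarith
      · nlinarith
    nlinarith [sq_nonneg (offA k - offA k' + 41400 * M + 20700 * N)]
  · push Not at hN
    by_cases hM : 3 ≤ M ∨ M ≤ -3
    · have h1 : (41400 : ℤ) ^ 2 ≤ (offA k - offA k' + 41400 * M + 20700 * N) ^ 2 := by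
        rcases hM with hM | hM
        · nlinarith
        · nlinarith
      nlinarith [sq_nonneg (offB k - offB k' + 20700 * N)]
    · push Not at hM
      obtain ⟨i, hi⟩ : ∃ i : Fin 5, ((i : ℕ) : ℤ) - 2 = M := by
        refine ⟨⟨(M + 2).toNat, by omega⟩, ?_⟩
        simp
        omega
      obtain ⟨j, hj⟩ : ∃ j : Fin 3, ((j : ℕ) : ℤ) - 1 = N := by
        refine ⟨⟨(N + 1).toNat, by omega⟩, ?_⟩
        simp
        omega
      have := finite_check k k' i j (by rw [hi, hj]; exact h)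
      rw [hi, hj] at this
      exact this

end Pool.Agent.H186R3.MinkArr
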