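import Mathlib
import Pool.Agent.H186R3.MinkArr

set_option autoImplicit false

namespace Pool.Agent.H186R3.MinkDens

open MeasureTheory Metric Filter Topology Pool.Agent.H186R3.MinkArr
open scoped ENNReal

/-- centre of the disk with index (m, n, k) -/
noncomputable def ctr (i : ℤ × ℤ × Fin 9) : ℂ :=
  ⟨((offA i.2.2 + 41400 * i.1 + 20700 * i.2.1 : ℤ) : ℝ) / 41400,
   ((offB i.2.2 + 20700 * i.2.1 : ℤ) : ℝ) / 41400 * √3⟩

noncomputable def rd (i : ℤ × ℤ × Fin 9) : ℝ := (rad i.2.2 : ℝ) / 41400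

theorem dist_sq (i j : ℤ × ℤ × Fin 9) :
    dist (ctr i) (ctr j) ^ 2 =
      (((offA i.2.2 - offA j.2.2 + 41400 * (i.1 - j.1) + 20700 * (i.2.1 - j.2.1) : ℤ) : ℝ) ^ 2
      + 3 * ((offB i.2.2 - offB j.2.2 + 20700 * (i.2.1 - j.2.1) : ℤ) : ℝ) ^ 2) / 41400 ^ 2 := by
  have h3 : (√3 : ℝ) ^ 2 = 3 := Real.sq_sqrt (by norm_num)
  rw [Complex.dist_eq, Complex.sq_norm, Complex.normSq_apply]
  simp only [ctr, Complex.sub_re, Complex.sub_im]
  push_cast
  have : ∀ a b : ℝ, (a * √3 - b * √3) * (a * √3 - b * √3) = (a - b) ^ 2 * 3 := by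
    intro a b
    have h4 : (a * √3 - b * √3) * (a * √3 - b * √3) = (a - b) ^ 2 * (√3) ^ 2 := by ring
    rw [h4, h3]
  rw [this]
  ring

theorem rd_pos (i : ℤ × ℤ × Fin 9) : 0 < rd i := by
  have := (bounds i.2.2 i.2.2).2.2.2.2.1
  have h : (0 : ℝ) < rad i.2.2 := by exact_mod_cast this
  unfold rd; positivity

theorem sep (i j : ℤ × ℤ × Fin 9) (hij : i ≠ j) :
    rd i + 13 / 17 * rd j ≤ dist (ctr i) (ctr j) := by
  have hne : i.2.2 ≠ j.2.2 ∨ i.1 - j.1 ≠ 0 ∨ i.2.1 - j.2.1 ≠ 0 := by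
    by_contra hcon
    push Not at hcon
    obtain ⟨h1, h2, h3⟩ := hcon
    apply hij
    obtain ⟨a, b, c⟩ := i
    obtain ⟨a', b', c'⟩ := j
    simp only at h1 h2 h3
    have : a = a' := by omega
    have : b = b' := by omega
    subst_vars
    rfl
  have hc := int_check i.2.2 j.2.2 (i.1 - j.1) (i.2.1 - j.2.1) hne
  have hm : (13 / 17 : ℝ) * rad j.2.2 = mrad j.2.2 := by
    have := mrad_eq j.2.2
    have h : (17 : ℝ) * mrad j.2.2 = 13 * rad j.2.2 := by exact_mod_cast this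
    linarith
  have hK : rd i + 13 / 17 * rd j = ((rad i.2.2 + mrad j.2.2 : ℤ) : ℝ) / 41400 := by
    unfold rd
    push_cast
    rw [← hm]; ring
  have hK0 : (0 : ℝ) ≤ ((rad i.2.2 + mrad j.2.2 : ℤ) : ℝ) / 41400 := by
    have := (bounds i.2.2 j.2.2).2.2.1
    have h : (0 : ℝ) < ((rad i.2.2 + mrad j.2.2 : ℤ) : ℝ) := by exact_mod_cast this
    positivity
  rw [hK]
  apply le_of_sq_le_sq _ dist_nonneg
  rw [dist_sq, div_pow]
  apply div_le_div_of_nonneg_right _ (by norm_num)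
  exact_mod_cast hc
where
  le_of_sq_le_sq {a b : ℝ} (h : a ^ 2 ≤ b ^ 2) (hb : 0 ≤ b) : a ≤ b := by
    exact le_of_sq_le_sq' h hb
  le_of_sq_le_sq' {a b : ℝ} (h : a ^ 2 ≤ b ^ 2) (hb : 0 ≤ b) : a ≤ b := by
    by_contra hcon
    push Not at hcon
    nlinarith

/-- the brick cell attached to a point -/
def brick (c : ℂ) : Set ℂ :=
  {z | z.re - c.re ∈ Set.Ico (0 : ℝ) 1 ∧ z.im - c.im ∈ Set.Ico (0 : ℝ) (√3 / 2)}

theorem vol_brick (c : ℂ) : volume (brick c) = ENNReal.ofReal (√3 / 2) := by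
  have h1 : brick c = Complex.measurableEquivRealProd ⁻¹'
      (Set.Ico c.re (c.re + 1) ×ˢ Set.Ico c.im (c.im + √3 / 2)) := by
    ext z
    simp only [brick, Set.mem_ofPred_eq, Set.mem_Ico, Set.mem_preimage, Set.mem_prod,
      Complex.measurableEquivRealProd_apply]
    constructor
    · rintro ⟨⟨h1, h2⟩, h3, h4⟩
      refine ⟨⟨by linarith, by linarith⟩, by linarith, by linarith⟩
    · rintro ⟨⟨h1, h2⟩, h3, h4⟩
      refine ⟨⟨by linarith, by linarith⟩, by linarith, by linarith⟩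
  rw [h1, Complex.volume_preserving_equiv_real_prod.measure_preimage
    (by exact (measurableSet_Ico.prod measurableSet_Ico).nullMeasurableSet)]
  rw [Measure.volume_eq_prod, Measure.prod_prod, Real.volume_Ico, Real.volume_Ico]
  rw [← ENNReal.ofReal_mul (by norm_num)]
  congr 1
  ring

theorem dist_brick (c z : ℂ) (h : z ∈ brick c) : dist z c ≤ 2 := by
  obtain ⟨⟨h1, h2⟩, h3, h4⟩ := h
  have hs : (√3 : ℝ) < 2 := by
    rw [Real.sqrt_lt' (by norm_num)]; norm_num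
  rw [Complex.dist_eq]
  have := Complex.norm_le_abs_re_add_abs_im (z - c)
  rw [Complex.sub_re, Complex.sub_im, abs_of_nonneg h1, abs_of_nonneg h3] at this
  linarith

theorem exists_brick (k : Fin 9) (z : ℂ) : ∃ m n : ℤ, z ∈ brick (ctr (m, n, k)) := by
  have hs : (0 : ℝ) < √3 := Real.sqrt_pos.mpr (by norm_num)
  set n : ℤ := ⌊(z.im - (offB k : ℝ) / 41400 * √3) / (√3 / 2)⌋ with hn
  set m : ℤ := ⌊z.re - (offA k : ℝ) / 41400 - (n : ℝ) / 2⌋ with hm
  refine ⟨m, n, ?_, ?_⟩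
  · have h1 := Int.floor_le (z.re - (offA k : ℝ) / 41400 - (n : ℝ) / 2)
    have h2 := Int.lt_floor_add_one (z.re - (offA k : ℝ) / 41400 - (n : ℝ) / 2)
    rw [← hm] at h1 h2
    simp only [ctr, Set.mem_Ico]
    push_cast
    constructor <;> linarith
  · have h1 := Int.floor_le ((z.im - (offB k : ℝ) / 41400 * √3) / (√3 / 2))
    have h2 := Int.lt_floor_add_one ((z.im - (offB k : ℝ) / 41400 * √3) / (√3 / 2))
    rw [← hn] at h1 h2
    rw [le_div_iff₀ (by positivity)] at h1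
    rw [div_lt_iff₀ (by positivity)] at h2
    simp only [ctr, Set.mem_Ico]
    push_cast
    constructor
    · nlinarith
    · nlinarith

/-- Counting: the bricks attached to centres in the ball of radius R cover the ball of radius R-2. -/
theorem count (k : Fin 9) (R : ℝ) :
    volume (closedBall (0 : ℂ) (R - 2)) ≤
      ∑' p : ℤ × ℤ, {p : ℤ × ℤ | ctr (p.1, p.2, k) ∈ closedBall (0 : ℂ) R}.indicator
        (fun _ => ENNReal.ofReal (√3 / 2)) p := by
  have hsub : closedBall (0 : ℂ) (R - 2) ⊆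
      ⋃ p : {p : ℤ × ℤ // ctr (p.1, p.2, k) ∈ closedBall (0 : ℂ) R},
        brick (ctr (p.1.1, p.1.2, k)) := by
    intro z hz
    obtain ⟨m, n, h⟩ := exists_brick k z
    rw [Set.mem_iUnion]
    refine ⟨⟨(m, n), ?_⟩, h⟩
    rw [mem_closedBall] at hz ⊢
    have h2 := dist_brick _ _ h
    have h3 := dist_triangle_left (ctr (m, n, k)) 0 z
    simp only
    linarith
  calc volume (closedBall (0 : ℂ) (R - 2)) ≤ volume (⋃ p : {p : ℤ × ℤ // ctr (p.1, p.2, k) ∈ closedBall (0 : ℂ) R},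
        brick (ctr (p.1.1, p.1.2, k))) := measure_mono hsub
    _ ≤ ∑' p : {p : ℤ × ℤ // ctr (p.1, p.2, k) ∈ closedBall (0 : ℂ) R},
        volume (brick (ctr (p.1.1, p.1.2, k))) := measure_iUnion_le _
    _ = ∑' p : {p : ℤ × ℤ // ctr (p.1, p.2, k) ∈ closedBall (0 : ℂ) R},
        ENNReal.ofReal (√3 / 2) := by simp only [vol_brick]
    _ = _ := tsum_subtype {p : ℤ × ℤ | ctr (p.1, p.2, k) ∈ closedBall (0 : ℂ) R}
        (fun _ => ENNReal.ofReal (√3 / 2))

/-- Total area of the members with centre in the ball of radius R. -/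
theorem area_ge (R : ℝ) :
    (∑ k : Fin 9, ENNReal.ofReal (Real.pi * ((rad k : ℝ) / 41400) ^ 2 / (√3 / 2))) *
      volume (closedBall (0 : ℂ) (R - 2)) ≤
    ∑' i : {i : ℤ × ℤ × Fin 9 // ctr i ∈ closedBall (0 : ℂ) R},
      volume (ball (ctr i.1) (rd i.1)) := by
  have hs : (0 : ℝ) < √3 := Real.sqrt_pos.mpr (by norm_num)
  have e1 : (∑' i : {i : ℤ × ℤ × Fin 9 // ctr i ∈ closedBall (0 : ℂ) R},
      volume (ball (ctr i.1) (rd i.1))) =
      ∑' i : ℤ × ℤ × Fin 9, {i | ctr i ∈ closedBall (0 : ℂ) R}.indicator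
        (fun i => volume (ball (ctr i) (rd i))) i :=
    tsum_subtype {i : ℤ × ℤ × Fin 9 | ctr i ∈ closedBall (0 : ℂ) R}
      (fun i => volume (ball (ctr i) (rd i)))
  have e2 : (∑' i : ℤ × ℤ × Fin 9, {i | ctr i ∈ closedBall (0 : ℂ) R}.indicator
        (fun i => volume (ball (ctr i) (rd i))) i) =
      ∑ k : Fin 9, ∑' p : ℤ × ℤ, {i | ctr i ∈ closedBall (0 : ℂ) R}.indicator
        (fun i => volume (ball (ctr i) (rd i))) (p.1, p.2, k) := by
    rw [← (Equiv.prodAssoc ℤ ℤ (Fin 9)).tsum_eq]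
    have e3 := ENNReal.tsum_prod (f := fun (p : ℤ × ℤ) (k : Fin 9) =>
      {i | ctr i ∈ closedBall (0 : ℂ) R}.indicator
        (fun i => volume (ball (ctr i) (rd i))) (p.1, p.2, k))
    refine Eq.trans e3 ?_
    rw [ENNReal.tsum_comm, tsum_fintype]
  rw [e1, e2, Finset.sum_mul]
  apply Finset.sum_le_sum
  intro k _
  calc ENNReal.ofReal (Real.pi * ((rad k : ℝ) / 41400) ^ 2 / (√3 / 2)) *
        volume (closedBall (0 : ℂ) (R - 2))
      ≤ ENNReal.ofReal (Real.pi * ((rad k : ℝ) / 41400) ^ 2 / (√3 / 2)) *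
        ∑' p : ℤ × ℤ, {p : ℤ × ℤ | ctr (p.1, p.2, k) ∈ closedBall (0 : ℂ) R}.indicator
        (fun _ => ENNReal.ofReal (√3 / 2)) p := by
        gcongr
        exact count k R
    _ = ∑' p : ℤ × ℤ, {i | ctr i ∈ closedBall (0 : ℂ) R}.indicator
        (fun i => volume (ball (ctr i) (rd i))) (p.1, p.2, k) := by
        rw [← ENNReal.tsum_mul_left]
        apply tsum_congr
        intro p
        by_cases hp : ctr (p.1, p.2, k) ∈ closedBall (0 : ℂ) R
        · rw [Set.indicator_of_mem (by exact hp), Set.indicator_of_mem (by exact hp)]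
          rw [← ENNReal.ofReal_mul (by positivity), Complex.volume_ball]
          have h0 : (0 : ℝ) ≤ rd (p.1, p.2, k) := (rd_pos _).le
          have h1 : ((NNReal.pi : NNReal) : ℝ≥0∞) = ENNReal.ofReal Real.pi := by
            rw [ENNReal.ofReal, ← NNReal.coe_real_pi, Real.toNNReal_coe]
          rw [h1, ← ENNReal.ofReal_pow h0, ← ENNReal.ofReal_mul (by positivity)]
          congr 1
          simp only [rd]
          field_simp
        · rw [Set.indicator_of_notMem (by exact hp), Set.indicator_of_notMem (by exact hp),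
            mul_zero]

end Pool.Agent.H186R3.MinkDens
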