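import Mathlib

set_option autoImplicit false

namespace Pool.Agent.H186R3.MinkHex

open MeasureTheory Metric Filter Topology
open scoped ENNReal

/-- the cap of the disk of radius 17/30 beyond the line at distance 1/2 in direction w -/
def cap (w : ℂ) : Set ℂ := {z | z ∈ ball (0 : ℂ) (17 / 30) ∧ 1 / 2 ≤ inner ℝ w z}

noncomputable def Q (y : ℝ) : ℝ :=
  17 / 30 * (1 - (y / (17 / 30)) ^ 2 / 2 - (y / (17 / 30)) ^ 4 / 8 - (y / (17 / 30)) ^ 6 / 16
    - 5 * (y / (17 / 30)) ^ 8 / 128)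

theorem Q_bound (x y : ℝ) (hx : 1 / 2 ≤ x) (h : x ^ 2 + y ^ 2 < (17 / 30) ^ 2) : x < Q y := by
  have hy : y ^ 2 < (17 / 30) ^ 2 - 1 / 4 := by nlinarith
  set t : ℝ := (y / (17 / 30)) ^ 2 with ht
  have ht0 : 0 ≤ t := by positivity
  have hty : t = y ^ 2 / (17 / 30) ^ 2 := by rw [ht, div_pow]
  have ht1 : t < 1 := by
    rw [hty, div_lt_one (by norm_num)]; nlinarith
  have hQ : Q y = 17 / 30 * (1 - t / 2 - t ^ 2 / 8 - t ^ 3 / 16 - 5 * t ^ 4 / 128) := by
    unfold Q; rw [ht]; ring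
  have hP : 0 < 1 - t / 2 - t ^ 2 / 8 - t ^ 3 / 16 - 5 * t ^ 4 / 128 := by
    have h2 : t ^ 2 ≤ 1 := by nlinarith
    have h3 : t ^ 3 ≤ 1 := by
      have : t ^ 3 = t ^ 2 * t := by ring
      nlinarith
    have h4 : t ^ 4 ≤ 1 := by
      have : t ^ 4 = t ^ 2 * t ^ 2 := by ring
      nlinarith
    nlinarith
  have hsq : 1 - t ≤ (1 - t / 2 - t ^ 2 / 8 - t ^ 3 / 16 - 5 * t ^ 4 / 128) ^ 2 := by
    have : (1 - t / 2 - t ^ 2 / 8 - t ^ 3 / 16 - 5 * t ^ 4 / 128) ^ 2 - (1 - t) =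
      7 / 128 * t ^ 5 + 7 / 512 * t ^ 6 + 5 / 1024 * t ^ 7 + 25 / 16384 * t ^ 8 := by ring
    have h5 : 0 ≤ 7 / 128 * t ^ 5 + 7 / 512 * t ^ 6 + 5 / 1024 * t ^ 7 + 25 / 16384 * t ^ 8 := by
      positivity
    linarith
  rw [hQ]
  have hx2 : x ^ 2 < (17 / 30) ^ 2 * (1 - t) := by
    rw [hty]
    have : (17 / 30 : ℝ) ^ 2 * (1 - y ^ 2 / (17 / 30) ^ 2) = (17 / 30) ^ 2 - y ^ 2 := by
      field_simp
    rw [this]; linarith
  have : x ^ 2 < (17 / 30 * (1 - t / 2 - t ^ 2 / 8 - t ^ 3 / 16 - 5 * t ^ 4 / 128)) ^ 2 := by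
    rw [mul_pow]
    nlinarith
  exact lt_of_pow_lt_pow_left₀ 2 (by positivity) this

noncomputable def lowF (_y : ℝ) : ℝ := 1 / 2 - 1 / 10 ^ 7

theorem integral_eq : ∫ y in Set.Ioo (-(8 / 30 : ℝ)) (8 / 30), (Q y - lowF y) =
    ∫ y in (-(8 / 30 : ℝ))..(8 / 30), (Q y - lowF y) := by
  rw [intervalIntegral.integral_of_le (by norm_num), integral_Ioc_eq_integral_Ioo]

/-- the value of the integral -/
theorem integral_val : ∫ y in (-(8 / 30 : ℝ))..(8 / 30), (Q y - lowF y) ≤ 23998 / 1000000 := by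
  have h : ∀ y, Q y - lowF y = (17/30 - (1 / 2 - 1 / 10 ^ 7)) * 1 - (15/17) * y ^ 2
     - (17/30/8/(17/30)^4) * y ^ 4 - (17/30/16/(17/30)^6) * y ^ 6 - (17/30*5/128/(17/30)^8) * y ^ 8 := by
    intro y; unfold Q lowF; ring
  have hF : ∀ y : ℝ, HasDerivAt (fun y : ℝ => (17/30 - (1 / 2 - 1 / 10 ^ 7)) * y - (15/17) * (y ^ 3 / 3)
     - (17/30/8/(17/30)^4) * (y ^ 5 / 5) - (17/30/16/(17/30)^6) * (y ^ 7 / 7) - (17/30*5/128/(17/30)^8) * (y ^ 9 / 9)) (Q y - lowF y) y := by
    intro y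
    rw [h]
    have h1 : HasDerivAt (fun y : ℝ => y) 1 y := hasDerivAt_id y
    have h3 : HasDerivAt (fun y : ℝ => y ^ 3 / 3) (y ^ 2) y :=
      ((hasDerivAt_pow 3 y).div_const 3).congr_deriv (by norm_num)
    have h5 : HasDerivAt (fun y : ℝ => y ^ 5 / 5) (y ^ 4) y :=
      ((hasDerivAt_pow 5 y).div_const 5).congr_deriv (by norm_num)
    have h7 : HasDerivAt (fun y : ℝ => y ^ 7 / 7) (y ^ 6) y :=
      ((hasDerivAt_pow 7 y).div_const 7).congr_deriv (by norm_num)
    have h9 : HasDerivAt (fun y : ℝ => y ^ 9 / 9) (y ^ 8) y :=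
      ((hasDerivAt_pow 9 y).div_const 9).congr_deriv (by norm_num)
    exact ((((h1.const_mul (17/30 - (1 / 2 - 1 / 10 ^ 7) : ℝ)).sub (h3.const_mul (15/17 : ℝ))).sub
      (h5.const_mul (17/30/8/(17/30)^4 : ℝ))).sub (h7.const_mul (17/30/16/(17/30)^6 : ℝ))).sub (h9.const_mul (17/30*5/128/(17/30)^8 : ℝ))
  rw [intervalIntegral.integral_eq_sub_of_hasDerivAt (fun y _ => hF y)]
  · norm_num
  · apply Continuous.intervalIntegrable
    simp only [h]
    fun_prop

theorem Q_cont : Continuous Q := by unfold Q; fun_prop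

theorem vol_cap_one : volume (cap 1) ≤ ENNReal.ofReal (23998 / 1000000) := by
  have hmp : MeasurePreserving (fun z : ℂ => Prod.swap (Complex.measurableEquivRealProd z))
      volume volume :=
    (Measure.measurePreserving_swap).comp Complex.volume_preserving_equiv_real_prod
  have hsub : cap 1 ⊆ (fun z : ℂ => Prod.swap (Complex.measurableEquivRealProd z)) ⁻¹'
      (regionBetween lowF Q (Set.Ioo (-(8 / 30 : ℝ)) (8 / 30))) := by
    intro z hz
    obtain ⟨h1, h2⟩ := hz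
    rw [mem_ball_zero_iff] at h1
    have h1' : z.re ^ 2 + z.im ^ 2 < (17 / 30) ^ 2 := by
      have := Complex.sq_norm z
      rw [Complex.normSq_apply] at this
      nlinarith [norm_nonneg z]
    have h2' : 1 / 2 ≤ z.re := by
      rw [Complex.inner] at h2
      simpa using h2
    simp only [Set.mem_preimage, regionBetween, Set.mem_ofPred_eq, Prod.swap, 
      Complex.measurableEquivRealProd_apply, Set.mem_Ioo]
    refine ⟨⟨by nlinarith, by nlinarith⟩, ?_, Q_bound _ _ h2' h1'⟩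
    unfold lowF; linarith
  have hmeas : MeasurableSet (regionBetween lowF Q (Set.Ioo (-(8 / 30 : ℝ)) (8 / 30))) :=
    measurableSet_regionBetween measurable_const Q_cont.measurable measurableSet_Ioo
  have hle : ∀ y ∈ Set.Ioo (-(8 / 30 : ℝ)) (8 / 30), lowF y ≤ Q y := by
    intro y hy
    have := Q_bound (1 / 2) y le_rfl (by nlinarith [hy.1, hy.2])
    unfold lowF; linarith
  calc volume (cap 1) ≤ _ := measure_mono hsub
    _ = volume (regionBetween lowF Q (Set.Ioo (-(8 / 30 : ℝ)) (8 / 30))) :=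
      hmp.measure_preimage hmeas.nullMeasurableSet
    _ = ENNReal.ofReal (∫ y in Set.Ioo (-(8 / 30 : ℝ)) (8 / 30), (Q - lowF) y) := by
      rw [Measure.volume_eq_prod]
      apply volume_regionBetween_eq_integral _ _ measurableSet_Ioo hle
      · exact integrableOn_const (by simp) (by simp)
      · exact (Q_cont.integrableOn_Icc).mono_set Set.Ioo_subset_Icc_self
    _ ≤ ENNReal.ofReal (23998 / 1000000) := by
      apply ENNReal.ofReal_le_ofReal
      simp only [Pi.sub_apply]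
      rw [integral_eq]
      exact integral_val

theorem vol_cap (w : ℂ) (hw : ‖w‖ = 1) : volume (cap w) ≤ ENNReal.ofReal (23998 / 1000000) := by
  let c : Circle := ⟨w, by simp [Submonoid.unitSphere, hw]⟩
  have hmp : MeasurePreserving (rotation c⁻¹) volume volume := (rotation c⁻¹).measurePreserving
  have hc : ((c⁻¹ : Circle) : ℂ) = (starRingEnd ℂ) w := Circle.coe_inv_eq_conj c
  have : cap w = (rotation c⁻¹) ⁻¹' (cap 1) := by
    ext z
    have h1 : rotation c⁻¹ z = (starRingEnd ℂ) w * z := by rw [rotation_apply, hc]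
    have h2 : ‖(starRingEnd ℂ) w * z‖ = ‖z‖ := by simp [hw]
    rw [Set.mem_preimage, h1]
    simp only [cap, Set.mem_ofPred_eq, mem_ball_zero_iff, h2, Complex.inner]
    simp
    intro _
    rw [mul_comm z.re, mul_comm z.im]
  rw [this]
  calc volume ((rotation c⁻¹) ⁻¹' (cap 1)) = volume (cap 1) := by
        apply hmp.measure_preimage
        apply MeasurableSet.nullMeasurableSet
        have : cap 1 = ball (0 : ℂ) (17 / 30) ∩ {z | 1 / 2 ≤ inner ℝ (1 : ℂ) z} := rfl
        rw [this]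
        apply measurableSet_ball.inter
        apply measurableSet_le measurable_const
        fun_prop
    _ ≤ _ := vol_cap_one

/-- centres of the hexagonal lattice -/
def hexC (u v : ℂ) (p : ℤ × ℤ) : ℂ := p.1 • u + p.2 • v

/-- the six minimal vectors -/
def W (u v : ℂ) : Fin 6 → ℂ := ![u, -u, v, -v, v - u, u - v]

def Dset (u v : ℂ) (c : ℂ) : Set ℂ :=
  {z | z ∈ ball c (17 / 30) ∧ ∀ i, inner ℝ (W u v i) (z - c) < 1 / 2}

theorem W_norm (u v : ℂ) (hu : ‖u‖ = 1) (hv : ‖v‖ = 1) (huv : inner ℝ u v = (1 / 2 : ℝ)) :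
    ∀ i, ‖W u v i‖ = 1 := by
  have h1 : ‖v - u‖ = 1 := by
    have := norm_sub_sq_real v u
    rw [hu, hv, real_inner_comm, huv] at this
    norm_num at this
    rcases this with h | h
    · exact h
    · linarith [norm_nonneg (v - u)]
  have h2 : ‖u - v‖ = 1 := by rw [norm_sub_rev]; exact h1
  intro i
  fin_cases i <;> simp [W, hu, hv, h1, h2]

theorem hexC_norm_sq (u v : ℂ) (hu : ‖u‖ = 1) (hv : ‖v‖ = 1) (huv : inner ℝ u v = (1 / 2 : ℝ))
    (m n : ℤ) : ‖m • u + n • v‖ ^ 2 = ((m ^ 2 + m * n + n ^ 2 : ℤ) : ℝ) := by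
  have e1 : m • u = (m : ℝ) • u := by simp
  have e2 : n • v = (n : ℝ) • v := by simp
  rw [e1, e2, norm_add_sq_real, norm_smul, norm_smul, hu, hv, inner_smul_left, inner_smul_right,
    huv]
  simp
  ring

theorem minvec (u v : ℂ) (m n : ℤ) (h0 : ¬ (m = 0 ∧ n = 0)) (h : m ^ 2 + m * n + n ^ 2 < 2) :
    ∃ i j, W u v i = m • u + n • v ∧ W u v j = - W u v i := by
  have hn : n ≤ 1 ∧ -1 ≤ n := by constructor <;> nlinarith [sq_nonneg (2 * m + n)]
  have hm : m ≤ 1 ∧ -1 ≤ m := by constructor <;> nlinarith [sq_nonneg (2 * n + m)]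
  obtain ⟨hn1, hn2⟩ := hn
  obtain ⟨hm1, hm2⟩ := hm
  interval_cases n <;> interval_cases m <;> simp at h0 h
  · exact ⟨3, 2, by simp [W], by simp [W]⟩
  · exact ⟨5, 4, by simp [W]; ring, by simp [W]⟩
  · exact ⟨1, 0, by simp [W], by simp [W]⟩
  · exact ⟨0, 1, by simp [W], by simp [W]⟩
  · exact ⟨4, 5, by simp [W]; ring, by simp [W]⟩
  · exact ⟨2, 3, by simp [W], by simp [W]⟩

theorem disj (u v : ℂ) (hu : ‖u‖ = 1) (hv : ‖v‖ = 1) (huv : inner ℝ u v = (1 / 2 : ℝ))
    (p q : ℤ × ℤ) (hpq : p ≠ q) : Disjoint (Dset u v (hexC u v p)) (Dset u v (hexC u v q)) := by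
  rw [Set.disjoint_left]
  rintro z ⟨h1, h2⟩ ⟨h3, h4⟩
  have hdist : dist (hexC u v q) (hexC u v p) < 17 / 15 := by
    rw [mem_ball] at h1 h3
    have := dist_triangle_left (hexC u v q) (hexC u v p) z
    linarith
  have hsub : hexC u v q - hexC u v p = (q.1 - p.1) • u + (q.2 - p.2) • v := by
    unfold hexC
    rw [sub_smul, sub_smul]; abel
  rw [dist_eq_norm, hsub] at hdist
  have hsq := hexC_norm_sq u v hu hv huv (q.1 - p.1) (q.2 - p.2)
  have hlt : (((q.1 - p.1) ^ 2 + (q.1 - p.1) * (q.2 - p.2) + (q.2 - p.2) ^ 2 : ℤ) : ℝ) < 2 := by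
    rw [← hsq]
    nlinarith [norm_nonneg ((q.1 - p.1) • u + (q.2 - p.2) • v)]
  have hlt' : (q.1 - p.1) ^ 2 + (q.1 - p.1) * (q.2 - p.2) + (q.2 - p.2) ^ 2 < 2 := by
    exact_mod_cast hlt
  have hne : ¬ (q.1 - p.1 = 0 ∧ q.2 - p.2 = 0) := by
    rintro ⟨h5, h6⟩
    apply hpq
    ext <;> omega
  obtain ⟨i, j, hi, hj⟩ := minvec u v _ _ hne hlt'
  have a1 := h2 i
  have a2 := h4 j
  rw [hj, inner_neg_left] at a2
  have e : z - hexC u v q = (z - hexC u v p) - W u v i := by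
    rw [hi, ← hsub]; ring
  rw [e, inner_sub_right, real_inner_self_eq_norm_sq, W_norm u v hu hv huv i] at a2
  linarith

theorem Dset_open (u v c : ℂ) : MeasurableSet (Dset u v c) := by
  have : Dset u v c = ball c (17 / 30) ∩ ⋂ i, {z | inner ℝ (W u v i) (z - c) < 1 / 2} := by
    ext z; simp [Dset]
  rw [this]
  apply measurableSet_ball.inter
  apply MeasurableSet.iInter
  intro i
  apply measurableSet_lt _ measurable_const
  fun_prop

theorem vol_Dset (u v c : ℂ) : volume (Dset u v c) = volume (Dset u v 0) := by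
  have : Dset u v c = (fun z => z + (-c)) ⁻¹' Dset u v 0 := by
    ext z
    simp only [Dset, Set.mem_ofPred_eq, Set.mem_preimage, mem_ball, dist_eq_norm,
      sub_eq_add_neg, neg_zero, add_zero]
  rw [this, measure_preimage_add_right]

theorem ball_le (u v : ℂ) (hu : ‖u‖ = 1) (hv : ‖v‖ = 1) (huv : inner ℝ u v = (1 / 2 : ℝ)) :
    volume (ball (0 : ℂ) (17 / 30)) ≤ volume (Dset u v 0) + ENNReal.ofReal (143988 / 1000000) := by
  have hsub : ball (0 : ℂ) (17 / 30) ⊆ Dset u v 0 ∪ ⋃ i : Fin 6, cap (W u v i) := by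
    intro z hz
    by_cases h : ∀ i, inner ℝ (W u v i) (z - 0) < 1 / 2
    · left; exact ⟨hz, h⟩
    · right
      push Not at h
      obtain ⟨i, hi⟩ := h
      rw [Set.mem_iUnion]
      rw [sub_zero] at hi
      exact ⟨i, hz, hi⟩
  calc volume (ball (0 : ℂ) (17 / 30)) ≤ volume (Dset u v 0 ∪ ⋃ i : Fin 6, cap (W u v i)) :=
        measure_mono hsub
    _ ≤ volume (Dset u v 0) + volume (⋃ i : Fin 6, cap (W u v i)) := measure_union_le _ _
    _ ≤ volume (Dset u v 0) + ∑ i : Fin 6, volume (cap (W u v i)) := by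
        gcongr
        exact measure_iUnion_fintype_le _ _
    _ ≤ volume (Dset u v 0) + ∑ i : Fin 6, ENNReal.ofReal (23998 / 1000000) := by
        gcongr with i
        exact vol_cap _ (W_norm u v hu hv huv i)
    _ = _ := by
        rw [Finset.sum_const, Finset.card_univ, Fintype.card_fin, nsmul_eq_mul]
        congr 1
        rw [show ((6 : ℕ) : ℝ≥0∞) = ENNReal.ofReal 6 by simp, ← ENNReal.ofReal_mul (by norm_num)]
        norm_num

theorem vol_ball_r (c : ℂ) (r : ℝ) (hr : 0 ≤ r) : volume (ball c r) = ENNReal.ofReal (Real.pi * r ^ 2) := by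
  rw [Complex.volume_ball]
  have h1 : ((NNReal.pi : NNReal) : ℝ≥0∞) = ENNReal.ofReal Real.pi := by
    rw [ENNReal.ofReal, ← NNReal.coe_real_pi, Real.toNNReal_coe]
  rw [h1, ← ENNReal.ofReal_pow hr, ← ENNReal.ofReal_mul (by positivity)]
  congr 1; ring

/-- the upper bound for the density relative to the union -/
noncomputable def kap : ℝ := Real.pi * (17 / 30) ^ 2 / (Real.pi * (17 / 30) ^ 2 - 143988 / 1000000)

theorem denom_pos : 0 < Real.pi * (17 / 30) ^ 2 - 143988 / 1000000 := by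
  nlinarith [Real.pi_gt_three]

theorem ball_le_kap (u v : ℂ) (hu : ‖u‖ = 1) (hv : ‖v‖ = 1) (huv : inner ℝ u v = (1 / 2 : ℝ))
    (c : ℂ) : volume (ball c (17 / 30)) ≤ ENNReal.ofReal kap * volume (Dset u v c) := by
  have h := ball_le u v hu hv huv
  rw [vol_ball_r _ _ (by norm_num)] at h
  have h2 : ENNReal.ofReal (Real.pi * (17 / 30) ^ 2 - 143988 / 1000000) ≤ volume (Dset u v 0) := by
    rw [ENNReal.ofReal_sub _ (by norm_num)]
    exact tsub_le_iff_right.mpr h
  rw [vol_Dset, vol_ball_r _ _ (by norm_num)]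
  calc ENNReal.ofReal (Real.pi * (17 / 30) ^ 2) =
      ENNReal.ofReal kap * ENNReal.ofReal (Real.pi * (17 / 30) ^ 2 - 143988 / 1000000) := by
        have := denom_pos
        rw [← ENNReal.ofReal_mul (by unfold kap; positivity)]
        congr 1
        unfold kap
        rw [div_mul_cancel₀ _ this.ne']
    _ ≤ _ := by gcongr

/-- For every finite or infinite subfamily the total area is at most kap times the area of the
union. -/
theorem ratio_le (u v : ℂ) (hu : ‖u‖ = 1) (hv : ‖v‖ = 1) (huv : inner ℝ u v = (1 / 2 : ℝ))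
    (S : Set (ℤ × ℤ)) :
    (∑' i : S, volume (ball (hexC u v i) (17 / 30))) /
      volume (⋃ i : S, ball (hexC u v i) (17 / 30)) ≤ ENNReal.ofReal kap := by
  apply ENNReal.div_le_of_le_mul
  calc (∑' i : S, volume (ball (hexC u v i) (17 / 30)))
      ≤ ∑' i : S, ENNReal.ofReal kap * volume (Dset u v (hexC u v i)) :=
        ENNReal.tsum_le_tsum (fun i => ball_le_kap u v hu hv huv _)
    _ = ENNReal.ofReal kap * ∑' i : S, volume (Dset u v (hexC u v i)) := ENNReal.tsum_mul_left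
    _ = ENNReal.ofReal kap * volume (⋃ i : S, Dset u v (hexC u v i)) := by
        rw [measure_iUnion]
        · intro i j hij
          exact disj u v hu hv huv _ _ (fun h => hij (Subtype.ext h))
        · intro i; exact Dset_open _ _ _
    _ ≤ ENNReal.ofReal kap * volume (⋃ i : S, ball (hexC u v i) (17 / 30)) := by
        gcongr with i
        intro z hz
        exact hz.1

end Pool.Agent.H186R3.MinkHex
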